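import Pool.Agent.H91.Fatou.Hom
import Pool.Agent.H79.Par.PerFin
import Pool.Agent.H79.Par.XX
import Pool.Agent.H79.Eul.Pol

/-!
# No neutral cycles, almost everywhere: definitions

`Cyc a b p x m`: `x 0, .., x (p - 1)` is a cycle in the plane of `a / b`, with multiplier `m`. `Gen d a b`: generic pairs. `BS d p`: the generic pairs with a neutral
cycle of period `p`. `NNeu v`: infinity is not periodic and no cycle of `Rf v` is neutral.
-/

set_option autoImplicit false

open Filter Topology Polynomial Metric Set MeasureTheory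

namespace Pool.Agent.H47.NN

open Pool.Agent.H44.Fatou Pool.Agent.H32.BT Pool.Agent.H79.Eul Pool.Agent.H79.Par

/-- `x` is a cycle of `a / b` in the plane, of period `p`, with multiplier `m` -/
structure Cyc (a b : Polynomial ℂ) (p : ℕ) (x : ℕ → ℂ) (m : ℂ) : Prop where
  ne : ∀ i, i < p → b.eval (x i) ≠ 0
  step : ∀ i, i < p → a.eval (x i) / b.eval (x i) = x (i + 1)
  per : x p = x 0
  mul : ∏ i ∈ Finset.range p, (Wr a b).eval (x i) / (b.eval (x i)) ^ 2 = m

/-- generic pairs of polynomials -/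
structure Gen (d : ℕ) (a b : Polynomial ℂ) : Prop where
  cop : IsCoprime a b
  ha : a.natDegree = d
  hb : b.natDegree = d
  a0 : a.eval 0 ≠ 0
  b0 : b.eval 0 ≠ 0

/-- the generic pairs with a neutral cycle of period `p` -/
def BS (d p : ℕ) : Set (E d) :=
  {v | Gen d (pol v.1) (pol v.2) ∧ ∃ x m, Cyc (pol v.1) (pol v.2) p x m ∧ ‖m‖ = 1}

/-- infinity is not periodic and there is no neutral cycle -/
def NNeu {d : ℕ} (v : E d) : Prop :=
  (∀ p : ℕ, 0 < p → (Rf v)^[p] OnePoint.infty ≠ OnePoint.infty) ∧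
    ∀ p : ℕ, 0 < p → ∀ x m, Cyc (pol v.1) (pol v.2) p x m → ‖m‖ ≠ 1

/-- two-variable homogeneous iterates of `t a / b`: the inner variable is `t`, the outer one `z` -/
noncomputable def itt (d : ℕ) (a b : Polynomial ℂ) :
    ℕ → Polynomial (Polynomial ℂ) × Polynomial (Polynomial ℂ)
  | 0 => (X, 1)
  | j + 1 =>
    (∑ i ∈ Finset.range (d + 1), C (X * C (a.coeff i)) * (itt d a b j).1 ^ i * (itt d a b j).2 ^ (d - i),
      ∑ i ∈ Finset.range (d + 1), C (C (b.coeff i)) * (itt d a b j).1 ^ i * (itt d a b j).2 ^ (d - i))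

/-- evaluation of a polynomial in two variables -/
noncomputable def ev2 (F : Polynomial (Polynomial ℂ)) (t z : ℂ) : ℂ :=
  (F.map (evalRingHom t)).eval z

end Pool.Agent.H47.NN
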