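import Pool.Agent.H47.NN.Defs
import Pool.Agent.H79.Par.CopNear

/-!
# Module MES: measurability

`gen_meas`. `Gen d (pol v.1) (pol v.2)` means, for `d ≥ 1`: `v.1 (Fin.last d) ≠ 0`, `v.2 (Fin.last d) ≠ 0` (`pol_deg`, `pol_coeff`), `v.1 0 ≠ 0`, `v.2 0 ≠ 0` (`eval 0` is the coefficient 0), open conditions, and coprimality. Among pairs of
degree exactly `d` the coprime ones form an open set (H79/Par/CopNear: coprimality with max degree `d` is stable), or: not coprime iff there is a common zero (over `ℂ`, `b ≠ 0`), and `{v | ∃ z ∈ closedBall 0 k, ev v.1 z = 0 ∧ ev v.2 z = 0}` is closed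
for every natural `k` (projection of a closed set along a compact factor: `isClosedMap_fst_of_compactSpace` / `IsCompact.isClosed_image`-type lemma or sequences). So the set is measurable.
`bs_meas`. `BS d p = {Gen} ∩ ⋃_k Pk`, where `Pk` is the set of the `v` for which there is `x` with `‖x i‖ ≤ k` for `i ≤ p`, `‖(pol v.2).eval (x i)‖ ≥ 1 / (k + 1)` for `i < p`, `(pol v.1).eval (x i) = (pol v.2).eval (x i) * x (i + 1)` for `i < p`,
`x p = x 0` and `‖∏_(i<p) (Wr ..).eval (x i)‖ = ‖∏_(i<p) ((pol v.2).eval (x i)) ^ 2‖`. Only `x 0, .., x p` matter: use `Fin (p + 1) → ℂ`, the ball of radius `k` is compact, all conditions are closed in `(v, x)` (everything is a polynomial in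
`v, x`: continuity of `v ↦ (pol v.1).eval z`, `(Wr ..).eval z` jointly: `pol_eval`, `ev` is a finite sum, `pol_deriv_eval`), so `Pk` is closed.
-/

set_option autoImplicit false

open Filter Topology Polynomial Metric Set MeasureTheory

namespace Pool.Agent.H47.NN

open Pool.Agent.H44.Fatou Pool.Agent.H79.Eul Pool.Agent.H79.Par

private theorem deg_of {d : ℕ} {w : Fin (d + 1) → ℂ} (h : w (Fin.last d) ≠ 0) : (pol w).natDegree = d := by
  refine le_antisymm (pol_deg w) (le_natDegree_of_ne_zero ?_)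
  have := pol_coeff w (Fin.last d)
  rw [Fin.val_last] at this
  rw [this]
  exact h

private theorem last_of {d : ℕ} (hd : 1 ≤ d) {w : Fin (d + 1) → ℂ} (h : (pol w).natDegree = d) :
    w (Fin.last d) ≠ 0 := by
  have h1 := pol_coeff w (Fin.last d)
  rw [Fin.val_last] at h1
  rw [← h1]
  have h2 : pol w ≠ 0 := by
    intro h0
    rw [h0, natDegree_zero] at h
    omega
  have h3 : (pol w).coeff (pol w).natDegree ≠ 0 := leadingCoeff_ne_zero.2 h2
  rw [h] at h3
  exact h3

private theorem gen_open {d : ℕ} (hd : 1 ≤ d) : IsOpen {v : E d | Gen d (pol v.1) (pol v.2)} := by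
  rw [isOpen_iff_eventually]
  intro v0 h0
  have h0' : Gen d (pol v0.1) (pol v0.2) := h0
  have e1 : ∀ᶠ v in 𝓝 v0, IsCoprime (pol v.1) (pol v.2) ∧
      max (pol v.1).natDegree (pol v.2).natDegree = d :=
    cop_near h0'.cop (by rw [h0'.ha, h0'.hb, max_self]) hd
  have c1 : Continuous fun v : E d => v.1 (Fin.last d) := by fun_prop
  have c2 : Continuous fun v : E d => v.2 (Fin.last d) := by fun_prop
  have c3 : Continuous fun v : E d => ev v.1 0 := by unfold ev; fun_prop
  have c4 : Continuous fun v : E d => ev v.2 0 := by unfold ev; fun_prop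
  have a0 := h0'.a0
  have b0 := h0'.b0
  rw [pol_eval] at a0 b0
  filter_upwards [e1, c1.continuousAt.eventually_ne (last_of hd h0'.ha),
    c2.continuousAt.eventually_ne (last_of hd h0'.hb), c3.continuousAt.eventually_ne a0,
    c4.continuousAt.eventually_ne b0] with v g1 g2 g3 g4 g5
  exact ⟨g1.1, deg_of g2, deg_of g3, by rw [pol_eval]; exact g4, by rw [pol_eval]; exact g5⟩

theorem gen_meas {d : ℕ} (hd : 1 ≤ d) :
    MeasurableSet {v : E d | Gen d (pol v.1) (pol v.2)} :=
  (gen_open hd).measurableSet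

/-- the conditions of a neutral cycle, bounded by `k` -/
private def Sk (d p k : ℕ) : Set (E d × closedBall (0 : Fin (p + 1) → ℂ) k) :=
  {q | (∀ i : Fin p, 1 / ((k : ℝ) + 1) ≤ ‖ev q.1.2 (q.2.1 i.castSucc)‖) ∧
    (∀ i : Fin p, ev q.1.1 (q.2.1 i.castSucc) = ev q.1.2 (q.2.1 i.castSucc) * q.2.1 i.succ) ∧
    q.2.1 (Fin.last p) = q.2.1 0 ∧
    ‖∏ i : Fin p, (dev q.1.1 (q.2.1 i.castSucc) * ev q.1.2 (q.2.1 i.castSucc) -
      ev q.1.1 (q.2.1 i.castSucc) * dev q.1.2 (q.2.1 i.castSucc))‖ =
      ‖∏ i : Fin p, (ev q.1.2 (q.2.1 i.castSucc)) ^ 2‖}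

private theorem Sk_closed (d p k : ℕ) : IsClosed (Sk d p k) := by
  have x0 : Continuous fun q : E d × closedBall (0 : Fin (p + 1) → ℂ) k => q.2.1 :=
    continuous_subtype_val.comp continuous_snd
  have x1 : ∀ i : Fin (p + 1), Continuous fun q : E d × closedBall (0 : Fin (p + 1) → ℂ) k => q.2.1 i :=
    fun i => (continuous_apply i).comp x0
  have x2 : ∀ i : Fin (p + 1), Continuous fun q : E d × closedBall (0 : Fin (p + 1) → ℂ) k =>
      ev q.1.1 (q.2.1 i) := by
    intro i
    have := x1 i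
    unfold ev
    fun_prop
  have x3 : ∀ i : Fin (p + 1), Continuous fun q : E d × closedBall (0 : Fin (p + 1) → ℂ) k =>
      ev q.1.2 (q.2.1 i) := by
    intro i
    have := x1 i
    unfold ev
    fun_prop
  have x4 : ∀ i : Fin (p + 1), Continuous fun q : E d × closedBall (0 : Fin (p + 1) → ℂ) k =>
      dev q.1.1 (q.2.1 i) := by
    intro i
    have := x1 i
    unfold dev
    fun_prop
  have x5 : ∀ i : Fin (p + 1), Continuous fun q : E d × closedBall (0 : Fin (p + 1) → ℂ) k =>
      dev q.1.2 (q.2.1 i) := by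
    intro i
    have := x1 i
    unfold dev
    fun_prop
  have c1 : IsClosed {q : E d × closedBall (0 : Fin (p + 1) → ℂ) k |
      ∀ i : Fin p, 1 / ((k : ℝ) + 1) ≤ ‖ev q.1.2 (q.2.1 i.castSucc)‖} := by
    rw [ofPred_forall]
    exact isClosed_iInter fun i => isClosed_le continuous_const (x3 _).norm
  have c2 : IsClosed {q : E d × closedBall (0 : Fin (p + 1) → ℂ) k |
      ∀ i : Fin p, ev q.1.1 (q.2.1 i.castSucc) = ev q.1.2 (q.2.1 i.castSucc) * q.2.1 i.succ} := by
    rw [ofPred_forall]
    exact isClosed_iInter fun i => isClosed_eq (x2 _) ((x3 _).mul (x1 _))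
  have c3 : IsClosed {q : E d × closedBall (0 : Fin (p + 1) → ℂ) k | q.2.1 (Fin.last p) = q.2.1 0} :=
    isClosed_eq (x1 _) (x1 _)
  have c4 : IsClosed {q : E d × closedBall (0 : Fin (p + 1) → ℂ) k |
      ‖∏ i : Fin p, (dev q.1.1 (q.2.1 i.castSucc) * ev q.1.2 (q.2.1 i.castSucc) -
      ev q.1.1 (q.2.1 i.castSucc) * dev q.1.2 (q.2.1 i.castSucc))‖ =
      ‖∏ i : Fin p, (ev q.1.2 (q.2.1 i.castSucc)) ^ 2‖} := by
    refine isClosed_eq ?_ ?_
    · exact (continuous_finsetProd _ fun i _ => ((x4 _).mul (x3 _)).sub ((x2 _).mul (x5 _))).norm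
    · exact (continuous_finsetProd _ fun i _ => (x3 _).pow 2).norm
  exact c1.inter (c2.inter (c3.inter c4))

private theorem wr_eval {d : ℕ} (v : E d) (z : ℂ) :
    (Wr (pol v.1) (pol v.2)).eval z = dev v.1 z * ev v.2 z - ev v.1 z * dev v.2 z := by
  unfold Wr
  rw [eval_sub, eval_mul, eval_mul, pol_deriv_eval, pol_deriv_eval, pol_eval, pol_eval]

theorem bs_meas {d : ℕ} (hd : 1 ≤ d) (p : ℕ) : MeasurableSet (BS d p) := by
  have hE : BS d p = {v : E d | Gen d (pol v.1) (pol v.2)} ∩ ⋃ k : ℕ, Prod.fst '' (Sk d p k) := by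
    ext v
    constructor
    · rintro ⟨hg, x, m, hc, hm⟩
      refine ⟨hg, ?_⟩
      rw [mem_iUnion]
      obtain ⟨k, hk⟩ := exists_nat_ge (∑ i ∈ Finset.range (p + 1), ‖x i‖ +
        ∑ i ∈ Finset.range p, 1 / ‖(pol v.2).eval (x i)‖)
      have s1 : 0 ≤ ∑ i ∈ Finset.range (p + 1), ‖x i‖ := Finset.sum_nonneg fun i _ => norm_nonneg _
      have s2 : 0 ≤ ∑ i ∈ Finset.range p, 1 / ‖(pol v.2).eval (x i)‖ :=
        Finset.sum_nonneg fun i _ => by positivity
      have k1 : ∀ i, i < p + 1 → ‖x i‖ ≤ k := by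
        intro i hi
        have := Finset.single_le_sum (f := fun i => ‖x i‖) (fun j _ => norm_nonneg _) (Finset.mem_range.2 hi)
        linarith
      have k2 : ∀ i, i < p → 1 / ((k : ℝ) + 1) ≤ ‖(pol v.2).eval (x i)‖ := by
        intro i hi
        have h1 := Finset.single_le_sum (f := fun i => 1 / ‖(pol v.2).eval (x i)‖)
          (fun j _ => by positivity) (Finset.mem_range.2 hi)
        have h2 : 0 < ‖(pol v.2).eval (x i)‖ := norm_pos_iff.2 (hc.ne i hi)
        have h3 : 1 / ‖(pol v.2).eval (x i)‖ ≤ (k : ℝ) + 1 := by linarith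
        have hk0 : (0 : ℝ) < (k : ℝ) + 1 := by positivity
        rw [div_le_iff₀ h2] at h3
        rw [div_le_iff₀ hk0]
        linarith
      have xm : (fun i : Fin (p + 1) => x i) ∈ closedBall (0 : Fin (p + 1) → ℂ) k := by
        rw [mem_closedBall_zero_iff, pi_norm_le_iff_of_nonneg (Nat.cast_nonneg k)]
        intro i
        exact k1 i i.2
      refine ⟨k, (v, ⟨fun i => x i, xm⟩), ⟨?_, ?_, ?_, ?_⟩, rfl⟩
      · intro i
        simp only [Fin.val_castSucc]
        rw [← pol_eval]
        exact k2 i i.2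
      · intro i
        simp only [Fin.val_castSucc, Fin.val_succ]
        rw [← pol_eval, ← pol_eval]
        have h1 := hc.step i i.2
        rw [div_eq_iff (hc.ne i i.2)] at h1
        rw [h1, mul_comm]
      · simp only [Fin.val_last, Fin.val_zero]
        exact hc.per
      · simp only [Fin.val_castSucc]
        have h1 : ∏ i : Fin p, (dev v.1 (x i) * ev v.2 (x i) - ev v.1 (x i) * dev v.2 (x i)) =
            ∏ i ∈ Finset.range p, (Wr (pol v.1) (pol v.2)).eval (x i) := by
          rw [Finset.prod_range]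
          exact Finset.prod_congr rfl fun i _ => (wr_eval v _).symm
        have h2 : ∏ i : Fin p, (ev v.2 (x i)) ^ 2 = ∏ i ∈ Finset.range p, ((pol v.2).eval (x i)) ^ 2 := by
          rw [Finset.prod_range]
          exact Finset.prod_congr rfl fun i _ => by rw [pol_eval]
        rw [h1, h2]
        have h3 := hc.mul
        rw [Finset.prod_div_distrib] at h3
        have h4 : ∏ i ∈ Finset.range p, ((pol v.2).eval (x i)) ^ 2 ≠ 0 :=
          Finset.prod_ne_zero_iff.2 fun i hi => pow_ne_zero 2 (hc.ne i (Finset.mem_range.1 hi))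
        rw [div_eq_iff h4] at h3
        rw [h3, norm_mul, hm, one_mul]
    · rintro ⟨hg, hk⟩
      rw [mem_iUnion] at hk
      obtain ⟨k, ⟨v', x, hx⟩, ⟨h1, h2, h3, h4⟩, rfl⟩ := hk
      simp only at h1 h2 h3 h4
      obtain ⟨X', hX⟩ : ∃ X' : ℕ → ℂ, ∀ i : Fin (p + 1), X' i = x i :=
        ⟨fun n => if h : n < p + 1 then x ⟨n, h⟩ else 0, fun i => by
          simp only
          rw [dif_pos i.2]⟩
      have hX1 : ∀ i : Fin p, X' i = x i.castSucc := fun i => hX i.castSucc
      have hX2 : ∀ i : Fin p, X' (i + 1) = x i.succ := fun i => hX i.succ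
      have hne : ∀ i, i < p → (pol v'.2).eval (X' i) ≠ 0 := by
        intro i hi
        have h5 := h1 ⟨i, hi⟩
        have h6 := hX1 ⟨i, hi⟩
        simp only at h6
        rw [pol_eval, h6]
        intro h0
        rw [h0, norm_zero] at h5
        have : (0 : ℝ) < 1 / ((k : ℝ) + 1) := by positivity
        linarith
      refine ⟨hg, X', _, ⟨hne, ?_, ?_, rfl⟩, ?_⟩
      · intro i hi
        have h5 := h2 ⟨i, hi⟩
        have h6 := hX1 ⟨i, hi⟩
        have h7 := hX2 ⟨i, hi⟩
        simp only at h6 h7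
        rw [div_eq_iff (hne i hi), pol_eval, pol_eval, h6, h7, h5, mul_comm]
      · have h5 := hX (Fin.last p)
        have h6 := hX 0
        rw [Fin.val_last] at h5
        rw [Fin.val_zero] at h6
        rw [h5, h6, h3]
      · have e1 : ∏ i : Fin p, (dev v'.1 (x i.castSucc) * ev v'.2 (x i.castSucc) -
            ev v'.1 (x i.castSucc) * dev v'.2 (x i.castSucc)) =
            ∏ i ∈ Finset.range p, (Wr (pol v'.1) (pol v'.2)).eval (X' i) := by
          rw [Finset.prod_range]
          exact Finset.prod_congr rfl fun i _ => by rw [wr_eval, hX1]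
        have e2 : ∏ i : Fin p, (ev v'.2 (x i.castSucc)) ^ 2 =
            ∏ i ∈ Finset.range p, ((pol v'.2).eval (X' i)) ^ 2 := by
          rw [Finset.prod_range]
          exact Finset.prod_congr rfl fun i _ => by rw [pol_eval, hX1]
        rw [Finset.prod_div_distrib, norm_div, ← e1, ← e2, h4]
        refine div_self ?_
        rw [e2, norm_ne_zero_iff]
        exact Finset.prod_ne_zero_iff.2 fun i hi => pow_ne_zero 2 (hne i (Finset.mem_range.1 hi))
  rw [hE]
  exact (gen_meas hd).inter (MeasurableSet.iUnion fun k =>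
    (isClosedMap_fst_of_compactSpace _ (Sk_closed d p k)).measurableSet)

end Pool.Agent.H47.NN
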