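import Pool.Agent.H47.NN.SML
import Pool.Agent.H47.NN.MES
import Pool.Agent.H47.NN.FUB

/-!
# Module INF: infinity is not periodic, almost everywhere

PROOF. Let `S = {v | Gen d (pol v.1) (pol v.2) ∧ (Rf v)^[p] infinity = infinity}`.
Homogeneous iterates of infinity: `(P_0, Q_0) = (1, 0)`, `P_(j+1) = hom d (pol v.1) P_j Q_j`, `Q_(j+1) = hom d (pol v.2) P_j Q_j`; for coprime `pol v.1, pol v.2` with max degree `d` (`dg = d`) `(Rf v)^[j] infinity = pt P_j Q_j` and
`(P_j, Q_j) ≠ (0, 0)` (`rat_pt`, `hom_ne`, H91/Fatou/Hom; as in `perRS_spec`), so `(Rf v)^[p] infinity = infinity` iff `Q_p = 0` (definition of `pt`).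
(1) `P_j, Q_j` are continuous in `v`, so `S = {Gen} ∩ {Q_p = 0}` is measurable (`gen_meas`).
(2) Lines: for `t ≠ 0`, `(t • v.1, v.2) ∈ S` implies `Gen d (pol v.1) (pol v.2)` (`pol_smul`, `Gen` is invariant under `a ↦ C t * a`, `t ≠ 0`). If `v` is generic, `Q_p` of `(t • v.1, v.2)` is a polynomial in `t` (one variable; define the iterates
in `ℂ[t]`), not the zero polynomial since by `small` it does not vanish for small `t ≠ 0`; so it has finitely many zeros: the set of `t` is finite, null. Conclude with `fub`.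
-/

set_option autoImplicit false

open Filter Topology Polynomial Metric Set MeasureTheory

namespace Pool.Agent.H47.NN

open Pool.Agent.H44.Fatou Pool.Agent.H79.Eul Pool.Agent.H79.Par

/-- homogeneous iterates of infinity -/
noncomputable def hI (d : ℕ) (a b : Polynomial ℂ) : ℕ → ℂ × ℂ
  | 0 => (1, 0)
  | j + 1 => (Pool.Agent.H91.Fatou.hom d a (hI d a b j).1 (hI d a b j).2,
      Pool.Agent.H91.Fatou.hom d b (hI d a b j).1 (hI d a b j).2)

/-- homogeneous iterates of infinity under `t a / b`, polynomials in `t` -/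
noncomputable def hIt (d : ℕ) (a b : Polynomial ℂ) : ℕ → Polynomial ℂ × Polynomial ℂ
  | 0 => (1, 0)
  | j + 1 =>
    (∑ i ∈ Finset.range (d + 1), X * C (a.coeff i) * (hIt d a b j).1 ^ i * (hIt d a b j).2 ^ (d - i),
      ∑ i ∈ Finset.range (d + 1), C (b.coeff i) * (hIt d a b j).1 ^ i * (hIt d a b j).2 ^ (d - i))

theorem hIt_eval (d : ℕ) (a b : Polynomial ℂ) (t : ℂ) (j : ℕ) :
    (hIt d a b j).1.eval t = (hI d (C t * a) b j).1 ∧
      (hIt d a b j).2.eval t = (hI d (C t * a) b j).2 := by
  induction j with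
  | zero =>
    constructor
    · show (1 : Polynomial ℂ).eval t = 1
      simp
    · show (0 : Polynomial ℂ).eval t = 0
      simp
  | succ j ih =>
    obtain ⟨h1, h2⟩ := ih
    constructor
    · show (∑ i ∈ Finset.range (d + 1),
        X * C (a.coeff i) * (hIt d a b j).1 ^ i * (hIt d a b j).2 ^ (d - i)).eval t =
        Pool.Agent.H91.Fatou.hom d (C t * a) (hI d (C t * a) b j).1 (hI d (C t * a) b j).2
      rw [eval_finset_sum]
      unfold Pool.Agent.H91.Fatou.hom
      refine Finset.sum_congr rfl fun i _ => ?_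
      rw [eval_mul, eval_mul, eval_mul, eval_X, eval_C, eval_pow, eval_pow, h1, h2, coeff_C_mul]
    · show (∑ i ∈ Finset.range (d + 1),
        C (b.coeff i) * (hIt d a b j).1 ^ i * (hIt d a b j).2 ^ (d - i)).eval t =
        Pool.Agent.H91.Fatou.hom d b (hI d (C t * a) b j).1 (hI d (C t * a) b j).2
      rw [eval_finset_sum]
      unfold Pool.Agent.H91.Fatou.hom
      refine Finset.sum_congr rfl fun i _ => ?_
      rw [eval_mul, eval_mul, eval_C, eval_pow, eval_pow, h1, h2]

theorem hI_spec {a b : Polynomial ℂ} (h : IsCoprime a b) {d : ℕ} (hd : dg a b = d) (j : ℕ) :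
    ((hI d a b j).1 ≠ 0 ∨ (hI d a b j).2 ≠ 0) ∧
      (rat a b)^[j] OnePoint.infty = pt (hI d a b j).1 (hI d a b j).2 := by
  subst hd
  induction j with
  | zero =>
    refine ⟨Or.inl ?_, ?_⟩
    · show (1 : ℂ) ≠ 0
      exact one_ne_zero
    · show OnePoint.infty = pt (1 : ℂ) (0 : ℂ)
      unfold pt
      simp
  | succ j ih =>
    obtain ⟨h1, h2⟩ := ih
    refine ⟨Pool.Agent.H91.Fatou.hom_ne h h1, ?_⟩
    rw [Function.iterate_succ_apply', h2, Pool.Agent.H91.Fatou.rat_pt h1]
    rfl

theorem pt_infty_iff {x y : ℂ} : pt x y = OnePoint.infty ↔ y = 0 := by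
  unfold pt
  split_ifs with h
  · simp [h]
  · constructor
    · intro h'
      exact absurd h' (OnePoint.coe_ne_infty _)
    · intro h'
      exact absurd h' h

theorem Gen.dg_eq {d : ℕ} {a b : Polynomial ℂ} (h : Gen d a b) : dg a b = d := by
  unfold dg
  rw [h.ha, h.hb, max_self]

theorem Gen.smul {d : ℕ} {a b : Polynomial ℂ} {t : ℂ} (ht : t ≠ 0) (h : Gen d (C t * a) b) :
    Gen d a b := by
  have hu : IsUnit (C t : Polynomial ℂ) := isUnit_C.2 (isUnit_iff_ne_zero.2 ht)
  refine ⟨?_, ?_, h.hb, ?_, h.b0⟩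
  · exact (isCoprime_mul_unit_left_left hu a b).1 h.cop
  · rw [← h.ha, natDegree_C_mul ht]
  · have := h.a0
    rw [eval_mul, eval_C] at this
    exact right_ne_zero_of_mul this

theorem hI_cont (d : ℕ) (j : ℕ) :
    Continuous (fun v : E d => (hI d (pol v.1) (pol v.2) j).1) ∧
      Continuous (fun v : E d => (hI d (pol v.1) (pol v.2) j).2) := by
  have hc1 : ∀ i : ℕ, Continuous (fun v : E d => (pol v.1).coeff i) := by
    intro i
    simp only [pol_coeff']
    split_ifs with h
    · exact (continuous_apply _).comp continuous_fst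
    · exact continuous_const
  have hc2 : ∀ i : ℕ, Continuous (fun v : E d => (pol v.2).coeff i) := by
    intro i
    simp only [pol_coeff']
    split_ifs with h
    · exact (continuous_apply _).comp continuous_snd
    · exact continuous_const
  induction j with
  | zero => exact ⟨continuous_const, continuous_const⟩
  | succ j ih =>
    obtain ⟨h1, h2⟩ := ih
    constructor
    · show Continuous (fun v : E d => ∑ i ∈ Finset.range (d + 1),
        (pol v.1).coeff i * (hI d (pol v.1) (pol v.2) j).1 ^ i *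
          (hI d (pol v.1) (pol v.2) j).2 ^ (d - i))
      exact continuous_finset_sum _ fun i _ => ((hc1 i).mul (h1.pow i)).mul (h2.pow (d - i))
    · show Continuous (fun v : E d => ∑ i ∈ Finset.range (d + 1),
        (pol v.2).coeff i * (hI d (pol v.1) (pol v.2) j).1 ^ i *
          (hI d (pol v.1) (pol v.2) j).2 ^ (d - i))
      exact continuous_finset_sum _ fun i _ => ((hc2 i).mul (h1.pow i)).mul (h2.pow (d - i))

theorem inf_null {d p : ℕ} (hd : 1 ≤ d) (hp : 0 < p) :
    volume {v : E d | Gen d (pol v.1) (pol v.2) ∧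
      (Rf v)^[p] OnePoint.infty = OnePoint.infty} = 0 := by
  have hiff : ∀ v : E d, Gen d (pol v.1) (pol v.2) →
      ((Rf v)^[p] OnePoint.infty = OnePoint.infty ↔ (hI d (pol v.1) (pol v.2) p).2 = 0) := by
    intro v hv
    have := (hI_spec hv.cop hv.dg_eq p).2
    rw [show Rf v = rat (pol v.1) (pol v.2) from rfl, this, pt_infty_iff]
  have hS : {v : E d | Gen d (pol v.1) (pol v.2) ∧
      (Rf v)^[p] OnePoint.infty = OnePoint.infty} =
      {v : E d | Gen d (pol v.1) (pol v.2)} ∩
        {v : E d | (hI d (pol v.1) (pol v.2) p).2 = 0} := by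
    ext v
    constructor
    · rintro ⟨h1, h2⟩
      exact ⟨h1, (hiff v h1).1 h2⟩
    · rintro ⟨h1, h2⟩
      exact ⟨h1, (hiff v h1).2 h2⟩
  have hmeas : MeasurableSet {v : E d | Gen d (pol v.1) (pol v.2) ∧
      (Rf v)^[p] OnePoint.infty = OnePoint.infty} := by
    rw [hS]
    exact (gen_meas hd).inter
      (isClosed_singleton.preimage (hI_cont d p).2).measurableSet
  apply fub hmeas
  intro v
  by_cases hg : Gen d (pol v.1) (pol v.2)
  · -- the polynomial in `t`
    set T : Polynomial ℂ := (hIt d (pol v.1) (pol v.2) p).2 with hT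
    have hT0 : T ≠ 0 := by
      intro h0
      obtain ⟨ε, hε, hsm⟩ := small hg hp
      have ht0 : ((ε / 2 : ℝ) : ℂ) ≠ 0 := by
        rw [Complex.ofReal_ne_zero]
        positivity
      have htn : ‖((ε / 2 : ℝ) : ℂ)‖ < ε := by
        rw [Complex.norm_real, Real.norm_eq_abs, abs_of_pos (by positivity)]
        linarith
      have h1 := (hsm _ ht0 htn).2
      apply h1
      have hu : IsUnit (C ((ε / 2 : ℝ) : ℂ) : Polynomial ℂ) :=
        isUnit_C.2 (isUnit_iff_ne_zero.2 ht0)
      have hcop : IsCoprime (C ((ε / 2 : ℝ) : ℂ) * pol v.1) (pol v.2) :=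
        (isCoprime_mul_unit_left_left hu _ _).2 hg.cop
      have hdg : dg (C ((ε / 2 : ℝ) : ℂ) * pol v.1) (pol v.2) = d := by
        unfold dg
        rw [natDegree_C_mul ht0, hg.ha, hg.hb, max_self]
      rw [(hI_spec hcop hdg p).2, pt_infty_iff, ← (hIt_eval d (pol v.1) (pol v.2) _ p).2, ← hT, h0,
        eval_zero]
    refine measure_mono_null (t := {t : ℂ | t ∈ T.roots.toFinset}) ?_
      (Set.Finite.measure_zero (Finset.finite_toSet _) _)
    rintro t ⟨ht, hv1, hv2⟩
    have hv1' : Gen d (pol ((t • v.1, v.2) : E d).1) (pol ((t • v.1, v.2) : E d).2) := hv1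
    have h2 := (hiff (t • v.1, v.2) hv1').1 hv2
    show t ∈ T.roots.toFinset
    rw [Multiset.mem_toFinset, mem_roots hT0, IsRoot.def, hT,
      (hIt_eval d (pol v.1) (pol v.2) t p).2, ← pol_smul]
    exact h2
  · refine measure_mono_null (t := (∅ : Set ℂ)) ?_ measure_empty
    rintro t ⟨ht, hv1, hv2⟩
    exfalso
    apply hg
    have hv1' : Gen d (pol (t • v.1)) (pol v.2) := hv1
    rw [pol_smul] at hv1'
    exact Gen.smul ht hv1'

end Pool.Agent.H47.NN
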