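import Pool.Agent.H47.NN.LNE
import Pool.Agent.H47.NN.INF

/-!
# Module FIN: almost every rational map has no neutral cycle

`nn`. The set is contained in the union of: the hyperplanes `v.1 (Fin.last d) = 0`, `v.2 (Fin.last d) = 0`, `v.1 0 = 0`, `v.2 0 = 0` (null), and, over the `p > 0`, the sets of `inf_null` and `BS d p`. [If `pol v.1, pol v.2` are coprime and none of the
four coefficients vanishes then `Gen`.] `BS d p` is null: `bs_meas`, `fub`: for every `v` and `t ≠ 0`, `(t • v.1, v.2) ∈ BS d p` implies `Gen d (pol v.1) (pol v.2)` and `pol (t • v.1) = C t * pol v.1`, so the slice is empty or contained in the null set of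
`lnull`.
`nneu_cyc`. Let `a` be a fixed point of `(Rf v)^[p]`. No `(Rf v)^[i] a` is infinity (otherwise infinity is periodic: `(Rf v)^[p] ((Rf v)^[i] a) = (Rf v)^[i] a`). Let `x i` be the complex number with `(Rf v)^[i] a = x i`. `(pol v.2).eval (x i) ≠ 0`, otherwise
`Rf v (x i) = pt _ 0 = infinity`; so `Rf v (x i)` is the quotient (`rat_coe_of_ne`): `Cyc` with `m` the product.
-/

set_option autoImplicit false

open Filter Topology Polynomial Metric Set MeasureTheory

namespace Pool.Agent.H47.NN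

open Pool.Agent.H44.Fatou Pool.Agent.H79.Eul Pool.Agent.H79.Par

private theorem hyp1 {d : ℕ} (i : Fin (d + 1)) : volume {v : E d | v.1 i = 0} = 0 := by
  have h1 : {v : E d | v.1 i = 0} = {f : Fin (d + 1) → ℂ | f i = 0} ×ˢ univ := by
    ext v
    simp
  have h2 : volume {f : Fin (d + 1) → ℂ | f i = 0} = 0 := by
    rw [volume_pi]
    exact Measure.pi_hyperplane (fun _ => volume) i 0
  rw [h1, Measure.volume_eq_prod, Measure.prod_prod, h2, zero_mul]

private theorem hyp2 {d : ℕ} (i : Fin (d + 1)) : volume {v : E d | v.2 i = 0} = 0 := by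
  have h1 : {v : E d | v.2 i = 0} = univ ×ˢ {f : Fin (d + 1) → ℂ | f i = 0} := by
    ext v
    simp
  have h2 : volume {f : Fin (d + 1) → ℂ | f i = 0} = 0 := by
    rw [volume_pi]
    exact Measure.pi_hyperplane (fun _ => volume) i 0
  rw [h1, Measure.volume_eq_prod, Measure.prod_prod, h2, mul_zero]

private theorem gen_of {d : ℕ} {v : E d} (hc : IsCoprime (pol v.1) (pol v.2))
    (h1 : v.1 (Fin.last d) ≠ 0) (h2 : v.2 (Fin.last d) ≠ 0) (h3 : v.1 0 ≠ 0) (h4 : v.2 0 ≠ 0) :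
    Gen d (pol v.1) (pol v.2) where
  cop := hc
  ha := by
    refine natDegree_eq_of_le_of_coeff_ne_zero (pol_deg _) ?_
    have := pol_coeff v.1 (Fin.last d)
    rw [Fin.val_last] at this
    rw [this]
    exact h1
  hb := by
    refine natDegree_eq_of_le_of_coeff_ne_zero (pol_deg _) ?_
    have := pol_coeff v.2 (Fin.last d)
    rw [Fin.val_last] at this
    rw [this]
    exact h2
  a0 := by
    rw [← coeff_zero_eq_eval_zero]
    have := pol_coeff v.1 0
    rw [Fin.val_zero] at this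
    rw [this]
    exact h3
  b0 := by
    rw [← coeff_zero_eq_eval_zero]
    have := pol_coeff v.2 0
    rw [Fin.val_zero] at this
    rw [this]
    exact h4

private theorem gen_smul {d : ℕ} {a b : Polynomial ℂ} {t : ℂ} (ht : t ≠ 0)
    (h : Gen d (C t * a) b) : Gen d a b where
  cop := h.cop.of_mul_left_right
  ha := by
    rw [← natDegree_C_mul ht]
    exact h.ha
  hb := h.hb
  a0 := by
    intro h0
    apply h.a0
    rw [eval_mul, h0, mul_zero]
  b0 := h.b0

private theorem bs_null {d p : ℕ} (hd : 1 ≤ d) (hp : 0 < p) : volume (BS d p) = 0 := by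
  refine fub (bs_meas hd p) fun v => ?_
  by_cases hne : ∃ t : ℂ, t ≠ 0 ∧ ((t • v.1, v.2) : E d) ∈ BS d p
  · obtain ⟨t0, ht0, hg, -⟩ := hne
    change Gen d (pol (t0 • v.1)) (pol v.2) at hg
    rw [pol_smul] at hg
    refine measure_mono_null ?_ (lnull (gen_smul ht0 hg) hp)
    rintro t ⟨-, -, x, m, hc, hm⟩
    change Cyc (pol (t • v.1)) (pol v.2) p x m at hc
    rw [pol_smul] at hc
    exact ⟨x, m, hc, hm⟩
  · have h1 : {t : ℂ | t ≠ 0 ∧ ((t • v.1, v.2) : E d) ∈ BS d p} = ∅ := by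
      rw [Set.eq_empty_iff_forall_notMem]
      intro t ht
      exact hne ⟨t, ht⟩
    rw [h1, measure_empty]

theorem nn {d : ℕ} (hd : 2 ≤ d) :
    volume {v : E d | IsCoprime (pol v.1) (pol v.2) ∧
      max (pol v.1).natDegree (pol v.2).natDegree = d ∧ ¬ NNeu v} = 0 := by
  have hsub : {v : E d | IsCoprime (pol v.1) (pol v.2) ∧
      max (pol v.1).natDegree (pol v.2).natDegree = d ∧ ¬ NNeu v} ⊆
      (({v : E d | v.1 (Fin.last d) = 0} ∪ {v : E d | v.2 (Fin.last d) = 0}) ∪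
        ({v : E d | v.1 0 = 0} ∪ {v : E d | v.2 0 = 0})) ∪
      ⋃ p : ℕ, ({v : E d | Gen d (pol v.1) (pol v.2) ∧
        (Rf v)^[p + 1] OnePoint.infty = OnePoint.infty} ∪ BS d (p + 1)) := by
    rintro v ⟨hc, -, hn⟩
    by_cases h1 : v.1 (Fin.last d) = 0
    · exact Or.inl (Or.inl (Or.inl h1))
    by_cases h2 : v.2 (Fin.last d) = 0
    · exact Or.inl (Or.inl (Or.inr h2))
    by_cases h3 : v.1 0 = 0
    · exact Or.inl (Or.inr (Or.inl h3))
    by_cases h4 : v.2 0 = 0
    · exact Or.inl (Or.inr (Or.inr h4))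
    have hg := gen_of hc h1 h2 h3 h4
    refine Or.inr ?_
    by_cases h5 : ∀ p : ℕ, 0 < p → (Rf v)^[p] OnePoint.infty ≠ OnePoint.infty
    · have h6 : ¬ ∀ p : ℕ, 0 < p → ∀ x m, Cyc (pol v.1) (pol v.2) p x m → ‖m‖ ≠ 1 :=
        fun h => hn ⟨h5, h⟩
      push Not at h6
      obtain ⟨p, hp, x, m, h7, h8⟩ := h6
      obtain ⟨q, rfl⟩ : ∃ q, p = q + 1 := ⟨p - 1, by omega⟩
      exact Set.mem_iUnion.2 ⟨q, Or.inr ⟨hg, x, m, h7, h8⟩⟩
    · push Not at h5
      obtain ⟨p, hp, h7⟩ := h5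
      obtain ⟨q, rfl⟩ : ∃ q, p = q + 1 := ⟨p - 1, by omega⟩
      exact Set.mem_iUnion.2 ⟨q, Or.inl ⟨hg, h7⟩⟩
  refine measure_mono_null hsub ?_
  rw [measure_union_null_iff, measure_union_null_iff, measure_union_null_iff,
    measure_union_null_iff, measure_iUnion_null_iff]
  refine ⟨⟨⟨hyp1 _, hyp2 _⟩, ⟨hyp1 _, hyp2 _⟩⟩, fun p => ?_⟩
  rw [measure_union_null_iff]
  exact ⟨inf_null (by omega) (Nat.succ_pos p), bs_null (by omega) (Nat.succ_pos p)⟩

theorem nneu_cyc {d p : ℕ} {v : E d} (h : NNeu v) (hp : 0 < p) {a : OnePoint ℂ}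
    (ha : (Rf v)^[p] a = a) :
    ∃ (x : ℕ → ℂ) (m : ℂ), (∀ i, (Rf v)^[i] a = (x i : OnePoint ℂ)) ∧
      Cyc (pol v.1) (pol v.2) p x m ∧ ‖m‖ ≠ 1 := by
  have hx : ∀ i, ∃ z : ℂ, (Rf v)^[i] a = (z : OnePoint ℂ) := by
    intro i
    have h1 : (Rf v)^[i] a ≠ OnePoint.infty := by
      intro h0
      refine h.1 p hp ?_
      rw [← h0, ← Function.iterate_add_apply, Nat.add_comm, Function.iterate_add_apply, ha]
    obtain ⟨z, hz⟩ := OnePoint.ne_infty_iff_exists.1 h1
    exact ⟨z, hz.symm⟩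
  choose x hx using hx
  have hst : ∀ i, Rf v (x i : OnePoint ℂ) = (x (i + 1) : OnePoint ℂ) := by
    intro i
    rw [← hx i, ← hx (i + 1), Function.iterate_succ_apply']
  have hb : ∀ i, (pol v.2).eval (x i) ≠ 0 := by
    intro i h0
    have h1 := hst i
    unfold Rf at h1
    rw [rat_coe, h0] at h1
    unfold pt at h1
    rw [if_pos rfl] at h1
    exact OnePoint.coe_ne_infty _ h1.symm
  have hcyc : Cyc (pol v.1) (pol v.2) p x (∏ i ∈ Finset.range p,
      (Wr (pol v.1) (pol v.2)).eval (x i) / ((pol v.2).eval (x i)) ^ 2) := by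
    refine ⟨fun i _ => hb i, fun i _ => ?_, ?_, rfl⟩
    · have h1 := hst i
      unfold Rf at h1
      rw [rat_coe_of_ne (hb i)] at h1
      exact OnePoint.coe_injective h1
    · have h1 := hx p
      rw [ha] at h1
      have h2 := hx 0
      rw [Function.iterate_zero_apply, h1] at h2
      exact OnePoint.coe_injective h2
  exact ⟨x, _, hx, hcyc, h.2 p hp x _ hcyc⟩

end Pool.Agent.H47.NN
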