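import Pool.Agent.H47.NN.Defs

/-!
# Module ELM: elimination of one variable

The set of the `t` for which `A (t, z) = B (t, z) = 0`, `G (t, z) ≠ 0` for some `z` is finite or cofinite.

PROOF. Let `K = RatFunc ℂ` (or `FractionRing ℂ[X]`), `A, B, G` in `K[z]` (coefficients mapped, an injective ring homomorphism). `K[z]` is a principal ideal domain.
(0) If `A = B = 0`: if `G = 0` the set is empty; if `G ≠ 0` some coefficient of `G` is a nonzero polynomial in `t`, so for all but finitely many `t` the polynomial `G (t, .)` is not 0 and has a non-zero value: cofinite.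
(1) Otherwise let `D ≠ 0` be a gcd of `A, B` in `K[z]`. Claim: there is a factorisation `D = D1 * D2`, `D1` coprime to `G`, and `D2` divides `G ^ N` for some `N` (if `G = 0`: the set is empty; for `G ≠ 0` induction on the degree of `D`:
if `gcd D G` is a unit take `D1 = D`, `D2 = 1`; otherwise divide by it; or look for a Mathlib lemma).
(2) `D1` is a unit (degree 0): then `D` divides `G ^ N` up to a unit, so `G ^ N = U A + V B` in `K[z]`; multiply by a common denominator `r ≠ 0` in `ℂ[t]` (`IsLocalization.integerNormalization`, or `IsLocalization.exist_integer_multiples`):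
`r G ^ N = U A + V B` in `ℂ[t][z]`. At a point `t` of the set, at `z`: `r(t) G(t,z)^N = 0`, so `r(t) = 0`: finitely many `t`.
(3) `D1` has positive degree. Clear denominators: replace `D1` by a non-zero element of `ℂ[t][z]` (same degree in `z`), `c A = D1 E`, `c' B = D1 F`, `s = U D1 + V G` with `c, c', s ≠ 0` in `ℂ[t]` and all other
polynomials in `ℂ[t][z]`. For every `t` outside the finite set of the zeros of `c, c', s` and of the leading coefficient of `D1`, `D1 (t, .)` has positive degree, hence a root `z` (`IsAlgClosed.exists_root`); then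
`A (t, z) = B (t, z) = 0` and `s(t) = V G (t, z)`, so `G (t, z) ≠ 0`: cofinite.
`ev2 F t z` is `(F.map (evalRingHom t)).eval z`, a ring homomorphism in `F` for fixed `t, z`; on `C r` it is `r.eval t`.
-/

set_option autoImplicit false

open Filter Topology Polynomial Metric Set MeasureTheory

namespace Pool.Agent.H47.NN

private theorem ev2_add (F G : Polynomial (Polynomial ℂ)) (t z : ℂ) :
    ev2 (F + G) t z = ev2 F t z + ev2 G t z := by
  unfold ev2
  rw [Polynomial.map_add, eval_add]

private theorem ev2_mul (F G : Polynomial (Polynomial ℂ)) (t z : ℂ) :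
    ev2 (F * G) t z = ev2 F t z * ev2 G t z := by
  unfold ev2
  rw [Polynomial.map_mul, eval_mul]

private theorem ev2_pow (F : Polynomial (Polynomial ℂ)) (n : ℕ) (t z : ℂ) :
    ev2 (F ^ n) t z = ev2 F t z ^ n := by
  unfold ev2
  rw [Polynomial.map_pow, eval_pow]

private theorem ev2_C (r : Polynomial ℂ) (t z : ℂ) : ev2 (C r) t z = r.eval t := by
  unfold ev2
  rw [map_C, eval_C, coe_evalRingHom]

section

variable {Kf : Type} [Field Kf] [Algebra (Polynomial ℂ) Kf] [IsFractionRing (Polynomial ℂ) Kf]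

private theorem elm_inj : Function.Injective (algebraMap (Polynomial ℂ) Kf) :=
  IsFractionRing.injective _ _

private theorem elm_map_inj {P Q : Polynomial (Polynomial ℂ)}
    (h : P.map (algebraMap (Polynomial ℂ) Kf) = Q.map (algebraMap (Polynomial ℂ) Kf)) : P = Q :=
  Polynomial.map_injective _ elm_inj h

/-- common denominators -/
private theorem elm_clear (p : Polynomial Kf) : ∃ (b : Polynomial ℂ) (P : Polynomial (Polynomial ℂ)),
    b ≠ 0 ∧ P.map (algebraMap (Polynomial ℂ) Kf) = C (algebraMap (Polynomial ℂ) Kf b) * p := by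
  obtain ⟨b, hbm, hb⟩ := IsLocalization.integerNormalization_spec
    (nonZeroDivisors (Polynomial ℂ)) p
  refine ⟨b, _, nonZeroDivisors.ne_zero hbm, hb.trans ?_⟩
  ext n
  rw [coeff_smul, coeff_C_mul, Algebra.smul_def]

/-- the zeros of a nonzero polynomial -/
private theorem elm_roots {r : Polynomial ℂ} (hr : r ≠ 0) : {t : ℂ | r.eval t = 0}.Finite := by
  refine (r.roots.toFinset.finite_toSet).subset ?_
  intro t ht
  rw [Finset.mem_coe, Multiset.mem_toFinset, mem_roots hr]
  exact ht

/-- an element divides a power of `G` if all its prime factors divide `G` -/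
private theorem elm_pow (G : Polynomial Kf) (D : Polynomial Kf) (hD : D ≠ 0)
    (h : ∀ q : Polynomial Kf, Irreducible q → q ∣ D → q ∣ G) : ∃ N : ℕ, D ∣ G ^ N := by
  classical
  induction D using WfDvdMonoid.induction_on_irreducible with
  | zero => exact absurd rfl hD
  | unit u hu => exact ⟨0, hu.dvd⟩
  | mul a q ha hq ih =>
    obtain ⟨N, hN⟩ := ih ha fun q' hq' hqa => h q' hq' (dvd_mul_of_dvd_right hqa q)
    refine ⟨N + 1, ?_⟩
    rw [pow_succ']
    exact mul_dvd_mul (h q hq (dvd_mul_right q a)) hN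

end

private theorem elm_zero (G : Polynomial (Polynomial ℂ)) :
    {t : ℂ | ∃ z, ev2 G t z ≠ 0}.Finite ∨ {t : ℂ | ∃ z, ev2 G t z ≠ 0}ᶜ.Finite := by
  by_cases hG : G = 0
  · left
    have h : {t : ℂ | ∃ z, ev2 G t z ≠ 0} = ∅ := by
      ext t
      rw [mem_ofPred_eq]
      refine ⟨?_, fun h => absurd h (notMem_empty t)⟩
      rintro ⟨z, hz⟩
      refine absurd ?_ hz
      unfold ev2
      rw [hG, Polynomial.map_zero, eval_zero]
    rw [h]
    exact finite_empty
  · right
    refine (elm_roots (leadingCoeff_ne_zero.2 hG)).subset ?_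
    intro t ht
    by_contra hne
    apply ht
    have h1 : G.map (evalRingHom t) ≠ 0 := by
      intro h0
      apply hne
      have h2 : (G.map (evalRingHom t)).coeff G.natDegree = 0 := by rw [h0, coeff_zero]
      rw [coeff_map] at h2
      exact h2
    by_contra hall
    rw [mem_ofPred_eq] at hall
    push Not at hall
    exact h1 (Polynomial.funext fun z => by
      rw [eval_zero]
      exact hall z)

private theorem elm_main (Kf : Type) [Field Kf] [Algebra (Polynomial ℂ) Kf]
    [IsFractionRing (Polynomial ℂ) Kf] (A B G : Polynomial (Polynomial ℂ)) :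
    {t : ℂ | ∃ z, ev2 A t z = 0 ∧ ev2 B t z = 0 ∧ ev2 G t z ≠ 0}.Finite ∨
      {t : ℂ | ∃ z, ev2 A t z = 0 ∧ ev2 B t z = 0 ∧ ev2 G t z ≠ 0}ᶜ.Finite := by
  classical
  by_cases h0 : A = 0 ∧ B = 0
  · obtain ⟨rfl, rfl⟩ := h0
    have h1 : {t : ℂ | ∃ z, ev2 0 t z = 0 ∧ ev2 0 t z = 0 ∧ ev2 G t z ≠ 0} =
        {t : ℂ | ∃ z, ev2 G t z ≠ 0} := by
      ext t
      constructor
      · rintro ⟨z, _, _, hz⟩
        exact ⟨z, hz⟩
      · rintro ⟨z, hz⟩
        have h2 : ev2 0 t z = 0 := by
          unfold ev2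
          rw [Polynomial.map_zero, eval_zero]
        exact ⟨z, h2, h2, hz⟩
    rw [h1]
    exact elm_zero G
  set φ : Polynomial ℂ →+* Kf := algebraMap (Polynomial ℂ) Kf with hφ
  set A' : Polynomial Kf := A.map φ with hA'
  set B' : Polynomial Kf := B.map φ with hB'
  set G' : Polynomial Kf := G.map φ with hG'
  have hAB : ¬ (A' = 0 ∧ B' = 0) := by
    rintro ⟨h1, h2⟩
    apply h0
    refine ⟨elm_map_inj (Kf := Kf) ?_, elm_map_inj (Kf := Kf) ?_⟩
    · rw [Polynomial.map_zero]
      exact h1
    · rw [Polynomial.map_zero]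
      exact h2
  set D : Polynomial Kf := EuclideanDomain.gcd A' B' with hD
  have hD0 : D ≠ 0 := by
    intro h
    rw [hD, EuclideanDomain.gcd_eq_zero_iff] at h
    exact hAB h
  by_cases hcase : ∀ q : Polynomial Kf, Irreducible q → q ∣ D → q ∣ G'
  · -- a power of `G` is in the ideal of `A`, `B`
    left
    obtain ⟨N, W, hW⟩ := elm_pow G' D hD0 hcase
    have hbez : D = A' * EuclideanDomain.gcdA A' B' + B' * EuclideanDomain.gcdB A' B' :=
      EuclideanDomain.gcd_eq_gcd_ab A' B'
    obtain ⟨b1, P1, hb1, hP1⟩ := elm_clear (EuclideanDomain.gcdA A' B' * W)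
    obtain ⟨b2, P2, hb2, hP2⟩ := elm_clear (EuclideanDomain.gcdB A' B' * W)
    have hid : C (b1 * b2) * G ^ N = C b2 * P1 * A + C b1 * P2 * B := by
      apply elm_map_inj (Kf := Kf)
      rw [Polynomial.map_mul, Polynomial.map_pow, Polynomial.map_add, Polynomial.map_mul,
        Polynomial.map_mul, Polynomial.map_mul, Polynomial.map_mul, hP1, hP2, map_C, map_C, map_C,
        map_mul, C_mul]
      show _ * G' ^ N = _ * A' + _ * B'
      rw [hW, hbez]
      ring
    refine (elm_roots (mul_ne_zero hb1 hb2)).subset ?_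
    rintro t ⟨z, h1, h2, h3⟩
    have h4 : ev2 (C (b1 * b2) * G ^ N) t z = 0 := by
      rw [hid, ev2_add, ev2_mul (C b2 * P1) A, ev2_mul (C b1 * P2) B, h1, h2, mul_zero, mul_zero,
        add_zero]
    rw [ev2_mul, ev2_C, ev2_pow] at h4
    rcases mul_eq_zero.1 h4 with h5 | h5
    · exact h5
    · exact absurd h5 (pow_ne_zero N h3)
  · -- an irreducible factor which does not divide `G`
    right
    push Not at hcase
    obtain ⟨q, hq, hqD, hqG⟩ := hcase
    obtain ⟨u, v, huv⟩ : IsCoprime q G' := (hq.coprime_iff_not_dvd).2 hqG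
    obtain ⟨E, hE⟩ := hqD.trans (EuclideanDomain.gcd_dvd_left A' B')
    obtain ⟨F, hF⟩ := hqD.trans (EuclideanDomain.gcd_dvd_right A' B')
    obtain ⟨m, M, hm, hM⟩ := elm_clear q
    obtain ⟨e1, E1, he1, hE1⟩ := elm_clear E
    obtain ⟨f1, F1, hf1, hF1⟩ := elm_clear F
    obtain ⟨u1, U1, hu1, hU1⟩ := elm_clear u
    obtain ⟨v1, V1, hv1, hV1⟩ := elm_clear v
    have hφ0 : ∀ r : Polynomial ℂ, r ≠ 0 → φ r ≠ 0 := fun r hr h => hr (elm_inj (Kf := Kf) (by
      rw [map_zero]
      exact h))
    have hdeg : 0 < M.natDegree := by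
      have h1 : M.natDegree = q.natDegree := by
        rw [← natDegree_map_eq_of_injective (elm_inj (Kf := Kf)) M, hM, natDegree_C_mul (hφ0 m hm)]
      rw [h1]
      exact hq.natDegree_pos
    have hM0 : M ≠ 0 := by
      rintro rfl
      rw [natDegree_zero] at hdeg
      exact lt_irrefl 0 hdeg
    have idA : C (m * e1) * A = M * E1 := by
      apply elm_map_inj (Kf := Kf)
      rw [Polynomial.map_mul, Polynomial.map_mul, hM, hE1, map_C, map_mul, C_mul]
      show _ * A' = _
      rw [hE]
      ring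
    have idB : C (m * f1) * B = M * F1 := by
      apply elm_map_inj (Kf := Kf)
      rw [Polynomial.map_mul, Polynomial.map_mul, hM, hF1, map_C, map_mul, C_mul]
      show _ * B' = _
      rw [hF]
      ring
    have idG : C (m * u1 * v1) = C v1 * U1 * M + C (m * u1) * V1 * G := by
      apply elm_map_inj (Kf := Kf)
      have hc : φ (m * u1 * v1) = φ m * φ u1 * φ v1 := by rw [map_mul, map_mul]
      have hc2 : φ (m * u1) = φ m * φ u1 := by rw [map_mul]
      rw [Polynomial.map_add, Polynomial.map_mul, Polynomial.map_mul, Polynomial.map_mul,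
        Polynomial.map_mul, hM, hU1, hV1, map_C, map_C, map_C]
      show C (φ (m * u1 * v1)) = C (φ v1) * (C (φ u1) * u) * (C (φ m) * q) +
        C (φ (m * u1)) * (C (φ v1) * v) * G'
      rw [hc, hc2, C_mul, C_mul]
      linear_combination (- C (φ m) * C (φ u1) * C (φ v1)) * huv
    have hr0 : m * e1 * f1 * u1 * v1 * M.leadingCoeff ≠ 0 :=
      mul_ne_zero (mul_ne_zero (mul_ne_zero (mul_ne_zero (mul_ne_zero hm he1) hf1) hu1) hv1)
        (leadingCoeff_ne_zero.2 hM0)
    refine (elm_roots hr0).subset ?_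
    intro t ht
    by_contra hne
    apply ht
    have hne' : ¬ (m * e1 * f1 * u1 * v1 * M.leadingCoeff).eval t = 0 := hne
    simp only [eval_mul, mul_eq_zero, not_or] at hne'
    obtain ⟨⟨⟨⟨⟨n1, n2⟩, n3⟩, n4⟩, n5⟩, n6⟩ := hne'
    have hdt : (M.map (evalRingHom t)).natDegree = M.natDegree :=
      natDegree_map_of_leadingCoeff_ne_zero _ n6
    obtain ⟨z, hz⟩ := IsAlgClosed.exists_root (M.map (evalRingHom t)) (by
      intro h
      have h1 : (M.map (evalRingHom t)).natDegree = 0 :=
        natDegree_eq_zero_iff_degree_le_zero.2 h.le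
      rw [hdt] at h1
      omega)
    have hzM : ev2 M t z = 0 := hz
    refine ⟨z, ?_, ?_, ?_⟩
    · have h1 : ev2 (C (m * e1) * A) t z = 0 := by
        rw [idA, ev2_mul, hzM, zero_mul]
      rw [ev2_mul, ev2_C, eval_mul] at h1
      exact (mul_eq_zero.1 h1).resolve_left (mul_ne_zero n1 n2)
    · have h1 : ev2 (C (m * f1) * B) t z = 0 := by
        rw [idB, ev2_mul, hzM, zero_mul]
      rw [ev2_mul, ev2_C, eval_mul] at h1
      exact (mul_eq_zero.1 h1).resolve_left (mul_ne_zero n1 n3)
    · intro hG0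
      have h1 : ev2 (C (m * u1 * v1)) t z = 0 := by
        rw [idG, ev2_add, ev2_mul (C v1 * U1) M, ev2_mul (C (m * u1) * V1) G, hzM, hG0, mul_zero,
          mul_zero, add_zero]
      rw [ev2_C, eval_mul, eval_mul] at h1
      exact mul_ne_zero (mul_ne_zero n1 n4) n5 h1

theorem elim (A B G : Polynomial (Polynomial ℂ)) :
    {t : ℂ | ∃ z, ev2 A t z = 0 ∧ ev2 B t z = 0 ∧ ev2 G t z ≠ 0}.Finite ∨
      {t : ℂ | ∃ z, ev2 A t z = 0 ∧ ev2 B t z = 0 ∧ ev2 G t z ≠ 0}ᶜ.Finite :=
  elm_main (FractionRing (Polynomial ℂ)) A B G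

end Pool.Agent.H47.NN
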