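import Pool.Agent.H47.NN.Defs

/-!
# Module ITR: cycles and the two-variable iterates

`P_j = (itt d a b j).1`, `Q_j = (itt d a b j).2`, evaluated at `(t, z)` (`ev2`). `hom d P x y = sum_i P.coeff i x^i y^(d-i)` (H91/Fatou/Hom).
(1) `ev2 P_0 = z`, `ev2 Q_0 = 1`, `ev2 P_(j+1) = t hom d a (ev2 P_j) (ev2 Q_j)`, `ev2 Q_(j+1) = hom d b (ev2 P_j) (ev2 Q_j)` (map and eval of sums; check the definition of `hom`).
(2) If `ev2 Q_j ≠ 0` and `x_j = ev2 P_j / ev2 Q_j` then `a.eval x_j = hom d a P_j Q_j / Q_j ^ d`, the same for `b` (`hom_of_ne`, degrees `≤ d`), so `b.eval x_j ≠ 0` iff `ev2 Q_(j+1) ≠ 0`, and then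
`(C t * a).eval x_j / b.eval x_j = P_(j+1) / Q_(j+1)`; and `Wr (C t * a) b = C t * Wr a b`, natDegree `≤ 2 d`, so `(Wr (C t * a) b).eval x_j / (b.eval x_j) ^ 2 = t hom (2 d) (Wr a b) P_j Q_j / Q_(j+1) ^ 2`.
(3) `cyc_iff`: from a cycle `x` with `x 0 = z`: by induction `Q_j ≠ 0` and `x j = P_j / Q_j` for `j ≤ p`; conversely put `x j = P_j / Q_j` for all `j`.
(4) `mset`: `A = P_p - X Q_p` (`X` = outer variable, `ev2 X t z = z`), `G = prod_(j in range (p+1)) Q_j`, `B = prod_(j < p) (C X * H_j) - C (C m) * prod_(j < p) Q_(j+1) ^ 2` where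
`H_j = sum_(i in range (2 d + 1)) C (C ((Wr a b).coeff i)) P_j ^ i Q_j ^ (2 d - i)` and `C X` is the variable `t`.
-/

set_option autoImplicit false

open Filter Topology Polynomial Metric Set MeasureTheory

namespace Pool.Agent.H47.NN

open Pool.Agent.H44.Fatou Pool.Agent.H91.Fatou

private noncomputable def evR (t z : ℂ) : Polynomial (Polynomial ℂ) →+* ℂ :=
  (evalRingHom z).comp (mapRingHom (evalRingHom t))

private theorem ev2_eq (F : Polynomial (Polynomial ℂ)) (t z : ℂ) : ev2 F t z = evR t z F := by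
  simp [ev2, evR]

private theorem evR_X (t z : ℂ) : evR t z X = z := by simp [evR]

private theorem evR_C (t z : ℂ) (r : Polynomial ℂ) : evR t z (C r) = r.eval t := by simp [evR]

private theorem P0 (d : ℕ) (a b : Polynomial ℂ) (t z : ℂ) : ev2 (itt d a b 0).1 t z = z := by
  rw [ev2_eq]
  simp [itt, evR_X]

private theorem Q0 (d : ℕ) (a b : Polynomial ℂ) (t z : ℂ) : ev2 (itt d a b 0).2 t z = 1 := by
  rw [ev2_eq]
  simp [itt]

private theorem PS (d : ℕ) (a b : Polynomial ℂ) (t z : ℂ) (j : ℕ) :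
    ev2 (itt d a b (j + 1)).1 t z
      = t * hom d a (ev2 (itt d a b j).1 t z) (ev2 (itt d a b j).2 t z) := by
  simp only [ev2_eq]
  simp only [itt, map_sum, map_mul, map_pow, evR_C, hom, Finset.mul_sum, eval_X, eval_C]
  apply Finset.sum_congr rfl
  intro i _
  ring

private theorem QS (d : ℕ) (a b : Polynomial ℂ) (t z : ℂ) (j : ℕ) :
    ev2 (itt d a b (j + 1)).2 t z
      = hom d b (ev2 (itt d a b j).1 t z) (ev2 (itt d a b j).2 t z) := by
  simp only [ev2_eq]
  simp only [itt, map_sum, map_mul, map_pow, evR_C, hom, eval_C]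

private theorem wr_deg {d : ℕ} {a b : Polynomial ℂ} (ha : a.natDegree ≤ d) (hb : b.natDegree ≤ d) :
    (Wr a b).natDegree ≤ 2 * d := by
  unfold Wr
  refine (natDegree_sub_le _ _).trans (max_le ?_ ?_)
  · refine natDegree_mul_le.trans ?_
    have := natDegree_derivative_le a
    omega
  · refine natDegree_mul_le.trans ?_
    have := natDegree_derivative_le b
    omega

private theorem wr_C (t : ℂ) (a b : Polynomial ℂ) : Wr (C t * a) b = C t * Wr a b := by
  unfold Wr
  rw [derivative_C_mul]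
  ring

private theorem stp {d : ℕ} {a b : Polynomial ℂ} (ha : a.natDegree ≤ d) (hb : b.natDegree ≤ d)
    (t z : ℂ) (j : ℕ) (hQ : ev2 (itt d a b j).2 t z ≠ 0) :
    (b.eval (ev2 (itt d a b j).1 t z / ev2 (itt d a b j).2 t z) ≠ 0 ↔
      ev2 (itt d a b (j + 1)).2 t z ≠ 0) ∧
    (ev2 (itt d a b (j + 1)).2 t z ≠ 0 →
      (C t * a).eval (ev2 (itt d a b j).1 t z / ev2 (itt d a b j).2 t z) /
        b.eval (ev2 (itt d a b j).1 t z / ev2 (itt d a b j).2 t z)
        = ev2 (itt d a b (j + 1)).1 t z / ev2 (itt d a b (j + 1)).2 t z ∧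
      (Wr (C t * a) b).eval (ev2 (itt d a b j).1 t z / ev2 (itt d a b j).2 t z) /
        (b.eval (ev2 (itt d a b j).1 t z / ev2 (itt d a b j).2 t z)) ^ 2
        = t * hom (2 * d) (Wr a b) (ev2 (itt d a b j).1 t z)
          (ev2 (itt d a b j).2 t z) / (ev2 (itt d a b (j + 1)).2 t z) ^ 2) := by
  have hQd : (ev2 (itt d a b j).2 t z) ^ d ≠ 0 := pow_ne_zero _ hQ
  rw [PS, QS, hom_of_ne ha hQ, hom_of_ne hb hQ, hom_of_ne (wr_deg ha hb) hQ, wr_C]
  constructor
  · constructor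
    · intro h
      exact mul_ne_zero hQd h
    · intro h h0
      rw [h0, mul_zero] at h
      exact h rfl
  · intro h
    have hb0 : b.eval (ev2 (itt d a b j).1 t z / ev2 (itt d a b j).2 t z) ≠ 0 := by
      intro h0
      rw [h0, mul_zero] at h
      exact h rfl
    rw [eval_mul, eval_C, eval_mul, eval_C]
    constructor
    · rw [div_eq_div_iff hb0 h]
      ring
    · rw [div_eq_div_iff (pow_ne_zero _ hb0) (pow_ne_zero _ h)]
      ring

theorem cyc_iff {d p : ℕ} {a b : Polynomial ℂ} (ha : a.natDegree ≤ d) (hb : b.natDegree ≤ d)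
    {t z m : ℂ} :
    (∃ x : ℕ → ℂ, x 0 = z ∧ Cyc (C t * a) b p x m) ↔
      (∀ j, j ≤ p → ev2 (itt d a b j).2 t z ≠ 0) ∧
        ev2 (itt d a b p).1 t z = z * ev2 (itt d a b p).2 t z ∧
        ∏ j ∈ Finset.range p, (t * hom (2 * d) (Wr a b) (ev2 (itt d a b j).1 t z)
          (ev2 (itt d a b j).2 t z) / (ev2 (itt d a b (j + 1)).2 t z) ^ 2) = m := by
  constructor
  · rintro ⟨x, hx0, hc⟩
    have key : ∀ j, j ≤ p → ev2 (itt d a b j).2 t z ≠ 0 ∧
        x j = ev2 (itt d a b j).1 t z / ev2 (itt d a b j).2 t z := by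
      intro j
      induction j with
      | zero =>
        intro _
        rw [P0, Q0]
        exact ⟨one_ne_zero, by rw [hx0, div_one]⟩
      | succ j ih =>
        intro hj
        obtain ⟨h1, h2⟩ := ih (by omega)
        have hs := stp ha hb t z j h1
        have hne := hc.ne j (by omega)
        rw [h2] at hne
        have hq := hs.1.mp hne
        refine ⟨hq, ?_⟩
        rw [← hc.step j (by omega), h2, (hs.2 hq).1]
    refine ⟨fun j hj => (key j hj).1, ?_, ?_⟩
    · have h1 := key p le_rfl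
      have h2 := hc.per
      rw [h1.2, hx0] at h2
      rw [div_eq_iff h1.1] at h2
      exact h2
    · rw [← hc.mul]
      apply Finset.prod_congr rfl
      intro j hj
      rw [Finset.mem_range] at hj
      have h1 := key j (by omega)
      have h2 := key (j + 1) (by omega)
      rw [h1.2]
      exact (((stp ha hb t z j h1.1).2 h2.1).2).symm
  · rintro ⟨h1, h2, h3⟩
    refine ⟨fun j => ev2 (itt d a b j).1 t z / ev2 (itt d a b j).2 t z, ?_, ?_, ?_, ?_, ?_⟩
    · show ev2 (itt d a b 0).1 t z / ev2 (itt d a b 0).2 t z = z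
      rw [P0, Q0, div_one]
    · intro i hi
      exact (stp ha hb t z i (h1 i hi.le)).1.mpr (h1 (i + 1) hi)
    · intro i hi
      exact ((stp ha hb t z i (h1 i hi.le)).2 (h1 (i + 1) hi)).1
    · show ev2 (itt d a b p).1 t z / ev2 (itt d a b p).2 t z
        = ev2 (itt d a b 0).1 t z / ev2 (itt d a b 0).2 t z
      rw [h2, P0, Q0, div_one, mul_div_assoc, div_self (h1 p le_rfl), mul_one]
    · rw [← h3]
      apply Finset.prod_congr rfl
      intro j hj
      rw [Finset.mem_range] at hj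
      exact ((stp ha hb t z j (h1 j hj.le)).2 (h1 (j + 1) hj)).2

theorem mset {d : ℕ} (p : ℕ) {a b : Polynomial ℂ} (ha : a.natDegree ≤ d) (hb : b.natDegree ≤ d)
    (m : ℂ) :
    ∃ A B G : Polynomial (Polynomial ℂ), ∀ t : ℂ,
      (∃ x : ℕ → ℂ, Cyc (C t * a) b p x m) ↔
        ∃ z, ev2 A t z = 0 ∧ ev2 B t z = 0 ∧ ev2 G t z ≠ 0 := by
  refine ⟨(itt d a b p).1 - X * (itt d a b p).2,
    ∏ j ∈ Finset.range p, (C X * ∑ i ∈ Finset.range (2 * d + 1), C (C ((Wr a b).coeff i)) *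
      (itt d a b j).1 ^ i * (itt d a b j).2 ^ (2 * d - i)) -
      C (C m) * ∏ j ∈ Finset.range p, (itt d a b (j + 1)).2 ^ 2,
    ∏ j ∈ Finset.range (p + 1), (itt d a b j).2, fun t => ?_⟩
  have e1 : (∃ x : ℕ → ℂ, Cyc (C t * a) b p x m) ↔
      ∃ z, ∃ x : ℕ → ℂ, x 0 = z ∧ Cyc (C t * a) b p x m := by
    constructor
    · rintro ⟨x, hx⟩
      exact ⟨x 0, x, rfl, hx⟩
    · rintro ⟨z, x, _, hx⟩
      exact ⟨x, hx⟩
  rw [e1]
  apply exists_congr
  intro z
  rw [cyc_iff ha hb]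
  have hA : ev2 ((itt d a b p).1 - X * (itt d a b p).2) t z
      = ev2 (itt d a b p).1 t z - z * ev2 (itt d a b p).2 t z := by
    simp only [ev2_eq, map_sub, map_mul, evR_X]
  have hG : ev2 (∏ j ∈ Finset.range (p + 1), (itt d a b j).2) t z ≠ 0 ↔
      ∀ j, j ≤ p → ev2 (itt d a b j).2 t z ≠ 0 := by
    simp only [ev2_eq, map_prod]
    rw [Finset.prod_ne_zero_iff]
    constructor
    · intro h j hj
      exact h j (Finset.mem_range.mpr (by omega))
    · intro h j hj
      exact h j (by have := Finset.mem_range.mp hj; omega)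
  have hB : ev2 (∏ j ∈ Finset.range p, (C X * ∑ i ∈ Finset.range (2 * d + 1),
      C (C ((Wr a b).coeff i)) * (itt d a b j).1 ^ i * (itt d a b j).2 ^ (2 * d - i)) -
      C (C m) * ∏ j ∈ Finset.range p, (itt d a b (j + 1)).2 ^ 2) t z
      = ∏ j ∈ Finset.range p, (t * hom (2 * d) (Wr a b) (ev2 (itt d a b j).1 t z)
          (ev2 (itt d a b j).2 t z)) -
        m * ∏ j ∈ Finset.range p, (ev2 (itt d a b (j + 1)).2 t z) ^ 2 := by
    simp only [ev2_eq, map_sub, map_mul, map_prod, map_sum, map_pow, evR_C, eval_X, eval_C, hom]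
  rw [hA, hB, hG]
  constructor
  · rintro ⟨h1, h2, h3⟩
    refine ⟨by rw [h2, sub_self], ?_, h1⟩
    rw [Finset.prod_div_distrib] at h3
    have hne : ∏ j ∈ Finset.range p, (ev2 (itt d a b (j + 1)).2 t z) ^ 2 ≠ 0 := by
      rw [Finset.prod_ne_zero_iff]
      intro j hj
      exact pow_ne_zero _ (h1 (j + 1) (Finset.mem_range.mp hj))
    rw [div_eq_iff hne] at h3
    rw [h3, sub_self]
  · rintro ⟨h2, h3, h1⟩
    refine ⟨h1, sub_eq_zero.mp h2, ?_⟩
    rw [Finset.prod_div_distrib]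
    have hne : ∏ j ∈ Finset.range p, (ev2 (itt d a b (j + 1)).2 t z) ^ 2 ≠ 0 := by
      rw [Finset.prod_ne_zero_iff]
      intro j hj
      exact pow_ne_zero _ (h1 (j + 1) (Finset.mem_range.mp hj))
    rw [div_eq_iff hne]
    exact sub_eq_zero.mp h3

end Pool.Agent.H47.NN
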