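import Pool.Agent.H47.NN.SML
import Pool.Agent.H47.NN.ELM
import Pool.Agent.H47.NN.ITR

/-!
# Module MFC: a given neutral multiplier occurs for finitely many `t` only

PROOF. By `mset` and `elim` the set `T = {t | ∃ x, Cyc (C t * a) b p x m}` is finite or cofinite. By `small` it contains no `t` with `0 < ‖t‖ < ε` (`‖m‖ = 1`), and there are infinitely many of them, so it is not cofinite.
-/

set_option autoImplicit false

open Filter Topology Polynomial Metric Set MeasureTheory

namespace Pool.Agent.H47.NN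

theorem mfin {d p : ℕ} {a b : Polynomial ℂ} (h : Gen d a b) (hp : 0 < p) {m : ℂ}
    (hm : ‖m‖ = 1) : {t : ℂ | ∃ x : ℕ → ℂ, Cyc (C t * a) b p x m}.Finite := by
  obtain ⟨A, B, G, hABG⟩ := mset p h.ha.le h.hb.le m
  have hset : {t : ℂ | ∃ x : ℕ → ℂ, Cyc (C t * a) b p x m}
      = {t : ℂ | ∃ z, ev2 A t z = 0 ∧ ev2 B t z = 0 ∧ ev2 G t z ≠ 0} := by
    apply Set.ext
    intro t
    exact hABG t
  rcases elim A B G with hf | hf
  · rw [hset]
    exact hf
  · exfalso
    rw [← hset] at hf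
    obtain ⟨ε, hε, hs⟩ := small h hp
    have hsub : (fun n : ℕ => ((ε / ((n : ℝ) + 2) : ℝ) : ℂ)) '' Set.univ ⊆
        {t : ℂ | ∃ x : ℕ → ℂ, Cyc (C t * a) b p x m}ᶜ := by
      rintro _ ⟨n, _, rfl⟩
      intro hx
      obtain ⟨x, hx⟩ := hx
      have hn : (0 : ℝ) < (n : ℝ) + 2 := by positivity
      have hpos : 0 < ε / ((n : ℝ) + 2) := div_pos hε hn
      have hlt : ε / ((n : ℝ) + 2) < ε := by
        rw [div_lt_iff₀ hn]
        nlinarith [(Nat.cast_nonneg n : (0 : ℝ) ≤ n)]
      have h1 := (hs ((ε / ((n : ℝ) + 2) : ℝ) : ℂ)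
        (by exact_mod_cast hpos.ne')
        (by rw [Complex.norm_real, Real.norm_of_nonneg hpos.le]; exact hlt)).1 x m hx
      exact h1 hm
    have hinj : Function.Injective (fun n : ℕ => ((ε / ((n : ℝ) + 2) : ℝ) : ℂ)) := by
      intro n k hnk
      have h1 : (ε / ((n : ℝ) + 2) : ℝ) = ε / ((k : ℝ) + 2) := Complex.ofReal_injective hnk
      have hn : (0 : ℝ) < (n : ℝ) + 2 := by positivity
      have hk : (0 : ℝ) < (k : ℝ) + 2 := by positivity
      rw [div_eq_div_iff hn.ne' hk.ne'] at h1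
      have h2 := mul_left_cancel₀ hε.ne' h1
      have h3 : (k : ℝ) = n := by linarith
      exact_mod_cast h3.symm
    exact (Set.infinite_univ.image hinj.injOn) (hf.subset hsub)

end Pool.Agent.H47.NN
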