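import Mathlib

/-!
# Module CIR: level sets of the modulus of a holomorphic function are null

PROOF. `Λ` is analytic on the ball, the ball is connected. `Λ` is not constant, so `deriv Λ` is not identically 0 and its zeros are isolated in the ball: null. At a point `t0` of the ball with `deriv Λ t0 ≠ 0`, `Λ` is injective
on a small closed ball `K`; by the area formula the integral of the Jacobian of `Λ` over `K ∩ {‖Λ t‖ = 1}` is the measure of a subset of the unit circle, that is 0, and the Jacobian is not 0.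
-/

set_option autoImplicit false

open Filter Topology Metric Set MeasureTheory

namespace Pool.Agent.H47.NN

private theorem circ_loc {t1 : ℂ} {r : ℝ} {Λ : ℂ → ℂ} (hA : AnalyticOnNhd ℂ Λ (ball t1 r))
    {x : ℂ} (hx : x ∈ ball t1 r) (hd : deriv Λ x ≠ 0) :
    ∃ ρ : ℝ, 0 < ρ ∧ volume (closedBall x ρ ∩ Λ ⁻¹' (sphere 0 1)) = 0 := by
  have hs : HasStrictDerivAt Λ (deriv Λ x) x := (hA x hx).hasStrictDerivAt
  have hs2 := hs.hasStrictFDerivAt_equiv hd
  set e := hs2.toOpenPartialHomeomorph Λ with he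
  have hsrc : e.source ∈ 𝓝 x := by
    have h1 : x ∈ e.source := hs2.mem_toOpenPartialHomeomorph_source
    exact e.open_source.mem_nhds h1
  have hinj : InjOn Λ e.source := by
    have := e.injOn
    simpa [he, HasStrictFDerivAt.toOpenPartialHomeomorph_coe] using this
  have hB : ball t1 r ∈ 𝓝 x := isOpen_ball.mem_nhds hx
  have hD : {t : ℂ | deriv Λ t ≠ 0} ∈ 𝓝 x := by
    have hc : ContinuousAt (deriv Λ) x := ((hA.deriv) x hx).continuousAt
    exact hc.eventually_ne hd
  obtain ⟨ρ, hρ, hsub⟩ := Metric.nhds_basis_closedBall.mem_iff.1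
    (Filter.inter_mem (Filter.inter_mem hsrc hB) hD)
  refine ⟨ρ, hρ, ?_⟩
  set s := closedBall x ρ ∩ Λ ⁻¹' (sphere 0 1) with hsdef
  have hcont : ContinuousOn Λ (closedBall x ρ) := fun t ht =>
    (hA t (hsub ht).1.2).continuousAt.continuousWithinAt
  have hcl : IsClosed s := hcont.preimage_isClosed_of_isClosed isClosed_closedBall isClosed_sphere
  have hms : MeasurableSet s := hcl.measurableSet
  let f' : ℂ → ℂ →L[ℝ] ℂ := fun t => (ContinuousLinearMap.toSpanSingleton ℂ (deriv Λ t)).restrictScalars ℝ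
  have hf' : ∀ t ∈ s, HasFDerivWithinAt Λ (f' t) s t := by
    intro t ht
    have h1 : HasDerivAt Λ (deriv Λ t) t := ((hA t (hsub ht.1).1.2).differentiableAt).hasDerivAt
    exact (h1.hasFDerivAt.restrictScalars ℝ).hasFDerivWithinAt
  have hinj' : InjOn Λ s := hinj.mono fun t ht => (hsub ht.1).1.1
  have harea := lintegral_abs_det_fderiv_eq_addHaar_image (μ := (volume : Measure ℂ)) hms hf' hinj'
  have him : volume (Λ '' s) = 0 := by
    refine measure_mono_null (t := sphere (0 : ℂ) 1) ?_ (Measure.addHaar_sphere _ _ _)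
    rintro _ ⟨t, ht, rfl⟩
    exact ht.2
  rw [him] at harea
  have hae := (lintegral_eq_zero_iff' (aemeasurable_ofReal_abs_det_fderivWithin
    (volume : Measure ℂ) hms hf')).1 harea
  have hae2 := (ae_restrict_iff' hms).1 hae
  have : ∀ᵐ t ∂(volume : Measure ℂ), t ∉ s := by
    filter_upwards [hae2] with t ht hts
    have h0 := ht hts
    simp only [Pi.zero_apply, ENNReal.ofReal_eq_zero, abs_nonpos_iff] at h0
    have hk := LinearMap.bot_lt_ker_of_det_eq_zero (f := ((f' t : ℂ →L[ℝ] ℂ) : ℂ →ₗ[ℝ] ℂ)) h0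
    obtain ⟨v, hv, hv0⟩ := (Submodule.ne_bot_iff _).1 hk.ne'
    have hv1 : (f' t) v = 0 := hv
    have hv2 : v * deriv Λ t = 0 := by simpa [f'] using hv1
    rcases mul_eq_zero.1 hv2 with h | h
    · exact hv0 h
    · exact (hsub hts.1).2 h
  exact measure_eq_zero_iff_ae_notMem.2 this

theorem circ {t1 : ℂ} {r : ℝ} {Λ : ℂ → ℂ} (hΛ : DifferentiableOn ℂ Λ (ball t1 r))
    (hn : ¬ ∃ c, ∀ t ∈ ball t1 r, Λ t = c) : volume {t | t ∈ ball t1 r ∧ ‖Λ t‖ = 1} = 0 := by
  have hA : AnalyticOnNhd ℂ Λ (ball t1 r) := hΛ.analyticOnNhd isOpen_ball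
  have hA' : AnalyticOnNhd ℂ (deriv Λ) (ball t1 r) := hA.deriv
  have hpre : IsPreconnected (ball t1 r) := (convex_ball t1 r).isPreconnected
  have hd : ¬ ∀ t ∈ ball t1 r, deriv Λ t = 0 := by
    intro h0
    apply hn
    refine ⟨Λ t1, fun t ht => ?_⟩
    have hpos : t1 ∈ ball t1 r := mem_ball_self (pos_of_mem_ball ht)
    exact isOpen_ball.is_const_of_deriv_eq_zero hpre hΛ h0 ht hpos
  have h2 : volume {t | t ∈ ball t1 r ∧ deriv Λ t = 0} = 0 := by
    refine measure_null_of_locally_null _ fun x hx => ?_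
    refine ⟨{x}, ?_, measure_singleton x⟩
    rcases (hA' x hx.1).eventually_eq_zero_or_eventually_ne_zero with h | h
    · exact absurd (fun t ht => hA'.eqOn_zero_of_preconnected_of_eventuallyEq_zero hpre hx.1 h ht) hd
    · rw [eventually_nhdsWithin_iff] at h
      rw [mem_nhdsWithin_iff_eventually]
      filter_upwards [h] with t ht hts
      by_contra hne
      exact ht hne hts.2
  have h1 : volume {t | t ∈ ball t1 r ∧ ‖Λ t‖ = 1 ∧ deriv Λ t ≠ 0} = 0 := by
    refine measure_null_of_locally_null _ fun x hx => ?_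
    obtain ⟨ρ, hρ, hz⟩ := circ_loc hA hx.1 hx.2.2
    refine ⟨closedBall x ρ ∩ Λ ⁻¹' (sphere 0 1), ?_, hz⟩
    rw [mem_nhdsWithin_iff_eventually]
    filter_upwards [closedBall_mem_nhds x hρ] with t ht hts
    exact ⟨ht, by simpa using hts.2.1⟩
  refine measure_mono_null ?_ (measure_union_null h1 h2)
  intro t ht
  by_cases h : deriv Λ t = 0
  · exact Or.inr ⟨ht.1, h⟩
  · exact Or.inl ⟨ht.1, ht.2, h⟩

end Pool.Agent.H47.NN
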