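import Pool.Agent.H47.NN.ITR

/-!
# Module LOC: the multiplier is locally a holomorphic function of `t`

Notation of `ITR`: `P_j (t, z)`, `Q_j (t, z)` are polynomials in two variables (`ev2`), so `F (t, z) = P_p (t, z) - z Q_p (t, z)` is a polynomial. `z1 = x 0`.
(1) Near `(t1, z1)` all `Q_j ≠ 0`, `j ≤ p` (`cyc_iff`, continuity), and `P_p / Q_p` at `t = t1` is the `p`-th iterate of `g = (C t1 * a) / b` near `z1`, its derivative at `z1` is, by the chain rule, the product of
`g' (x j) = (Wr (C t1 * a) b) (x j) / b (x j) ^ 2`, that is `m1`. Hence `dF / dz (t1, z1) = Q_p (t1, z1) (m1 - 1) ≠ 0` (`F = Q_p (P_p / Q_p - z)` and the bracket vanishes at the point).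
[By induction on `j`: `(P_j / Q_j) (t1, .)` has derivative `prod_(i < j) ..` at `z1`.]
(2) Implicit function theorem for the polynomial map `(t, z) ↦ (t, F (t, z))` of `ℂ × ℂ`: its derivative at `(t1, z1)` is invertible; `HasStrictFDerivAt.toOpenPartialHomeomorph` or `ContDiffAt.to_localInverse` over `ℂ` (or
Mathlib's `implicitFunction`, or zero counting by Rouche): there are `r > 0` and `zeta` holomorphic on `ball t1 r`, `zeta t1 = z1`, such that for `t` in `ball t1 r` and `‖z - z1‖ < r`: `F (t, z) = 0` iff `z = zeta t`; make `r`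
smaller so that `‖zeta t - z1‖` is small, all `Q_j (t, zeta t) ≠ 0`.
(3) `Lam t = prod_(j < p) t hom (2 d) (Wr a b) (P_j (t, zeta t)) (Q_j (t, zeta t)) / Q_(j+1) (t, zeta t) ^ 2` is holomorphic; by `cyc_iff` the cycles of `C t * a, b` with `‖y 0 - z1‖ < r` have `y 0 = zeta t`
and multiplier `Lam t`, and `zeta t` gives a cycle with multiplier `Lam t`.
-/

set_option autoImplicit false

open Filter Topology Polynomial Metric Set MeasureTheory

namespace Pool.Agent.H47.NN

open Pool.Agent.H44.Fatou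

/-- the iterates of `t a / b` as functions of `(t, z)` -/
private noncomputable def wl (a b : Polynomial ℂ) : ℕ → ℂ × ℂ → ℂ
  | 0, q => q.2
  | j + 1, q => q.1 * a.eval (wl a b j q) / b.eval (wl a b j q)

private theorem wl_cyc {p : ℕ} {a b : Polynomial ℂ} {t m : ℂ} {y : ℕ → ℂ} (h : Cyc (C t * a) b p y m) :
    ∀ j, j ≤ p → wl a b j (t, y 0) = y j := by
  intro j
  induction j with
  | zero => intro _; rfl
  | succ j ih =>
    intro hj
    have h1 := ih (by omega)
    have h2 := h.step j (by omega)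
    rw [eval_mul, eval_C] at h2
    show t * a.eval (wl a b j (t, y 0)) / b.eval (wl a b j (t, y 0)) = y (j + 1)
    rw [h1, h2]

private theorem wl_cd {a b : Polynomial ℂ} {q : ℂ × ℂ} :
    ∀ j, (∀ i, i < j → b.eval (wl a b i q) ≠ 0) → ContDiffAt ℂ 1 (wl a b j) q := by
  intro j
  induction j with
  | zero =>
    intro _
    exact contDiffAt_snd
  | succ j ih =>
    intro h
    have h1 := ih (fun i hi => h i (by omega))
    have ha : ContDiff ℂ 1 (fun z : ℂ => a.eval z) := by
      have := a.contDiff_aeval (𝕜 := ℂ) 1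
      simpa [Polynomial.coe_aeval_eq_eval] using this
    have hb : ContDiff ℂ 1 (fun z : ℂ => b.eval z) := by
      have := b.contDiff_aeval (𝕜 := ℂ) 1
      simpa [Polynomial.coe_aeval_eq_eval] using this
    exact (contDiffAt_fst.mul (ha.contDiffAt.comp q h1)).div (hb.contDiffAt.comp q h1) (h j (by omega))

private theorem wl_der {a b : Polynomial ℂ} {t z : ℂ} :
    ∀ j, (∀ i, i < j → b.eval (wl a b i (t, z)) ≠ 0) →
      HasDerivAt (fun w => wl a b j (t, w))
        (∏ i ∈ Finset.range j, (Wr (C t * a) b).eval (wl a b i (t, z)) / (b.eval (wl a b i (t, z))) ^ 2) z := by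
  intro j
  induction j with
  | zero =>
    intro _
    simp only [Finset.range_zero, Finset.prod_empty]
    exact hasDerivAt_id z
  | succ j ih =>
    intro h
    have h1 := ih (fun i hi => h i (by omega))
    have hb := h j (by omega)
    have h2 : HasDerivAt (fun w => (C t * a).eval w / b.eval w)
        ((Wr (C t * a) b).eval (wl a b j (t, z)) / (b.eval (wl a b j (t, z))) ^ 2) (wl a b j (t, z)) := by
      have := ((C t * a).hasDerivAt (wl a b j (t, z))).div (b.hasDerivAt (wl a b j (t, z))) hb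
      unfold Wr
      rw [eval_sub, eval_mul, eval_mul (p := C t * a) (q := derivative b)]
      exact this
    have h3 := HasDerivAt.comp z h2 h1
    rw [Finset.prod_range_succ, mul_comm]
    refine h3.congr_of_eventuallyEq (Eventually.of_forall fun w => ?_)
    show t * a.eval (wl a b j (t, w)) / b.eval (wl a b j (t, w)) = _
    simp only [Function.comp, eval_mul, eval_C]

private theorem inv_of (L : ℂ →L[ℂ] ℂ) (h : L 1 ≠ 0) : L.IsInvertible := by
  refine ⟨ContinuousLinearEquiv.unitsEquivAut ℂ (Units.mk0 (L 1) h), ?_⟩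
  ext
  simp

theorem loc {d p : ℕ} {a b : Polynomial ℂ} (ha : a.natDegree ≤ d) (hb : b.natDegree ≤ d)
    {t1 m1 : ℂ} {x : ℕ → ℂ} (hc : Cyc (C t1 * a) b p x m1) (hm : m1 ≠ 1) :
    ∃ r : ℝ, 0 < r ∧ ∃ Λ : ℂ → ℂ, DifferentiableOn ℂ Λ (ball t1 r) ∧
      (∀ t ∈ ball t1 r, ∀ (y : ℕ → ℂ) (m : ℂ), Cyc (C t * a) b p y m → ‖y 0 - x 0‖ < r →
        m = Λ t) ∧
      ∀ t ∈ ball t1 r, ∃ y : ℕ → ℂ, Cyc (C t * a) b p y (Λ t) := by
  have hw := wl_cyc hc
  have hbne : ∀ i, i < p → b.eval (wl a b i (t1, x 0)) ≠ 0 := by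
    intro i hi
    rw [hw i hi.le]
    exact hc.ne i hi
  obtain ⟨u, hu⟩ : ∃ u : ℂ × ℂ, u = (t1, x 0) := ⟨_, rfl⟩
  have hbu : ∀ i, i < p → b.eval (wl a b i u) ≠ 0 := by rw [hu]; exact hbne
  obtain ⟨f, hf⟩ : ∃ f : ℂ × ℂ → ℂ, f = fun q => wl a b p q - q.2 := ⟨_, rfl⟩
  have cdf : ContDiffAt ℂ 1 f u := by
    rw [hf]
    exact (wl_cd p hbu).sub contDiffAt_snd
  have hfu : f u = 0 := by
    rw [hf, hu]
    simp only
    rw [hw p le_rfl, hc.per, sub_self]
  -- the partial derivative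
  have hL : (fderiv ℂ f u ∘L .inr ℂ ℂ ℂ) 1 ≠ 0 := by
    have d1 : HasFDerivAt f (fderiv ℂ f u) u := (cdf.differentiableAt one_ne_zero).hasFDerivAt
    have d2 : HasDerivAt (fun w : ℂ => ((t1, w) : ℂ × ℂ)) ((0, 1) : ℂ × ℂ) (x 0) :=
      (hasDerivAt_const (x 0) t1).prodMk (hasDerivAt_id (x 0))
    have d1' : HasFDerivAt f (fderiv ℂ f u) ((fun w : ℂ => ((t1, w) : ℂ × ℂ)) (x 0)) := by
      show HasFDerivAt f (fderiv ℂ f u) (t1, x 0)
      rw [← hu]
      exact d1
    have d3 : HasDerivAt (fun w : ℂ => f (t1, w)) ((fderiv ℂ f u) (0, 1)) (x 0) :=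
      d1'.comp_hasDerivAt (x 0) d2
    have d4 : HasDerivAt (fun w : ℂ => f (t1, w)) (m1 - 1) (x 0) := by
      rw [hf]
      have e1 := (wl_der (a := a) (b := b) (t := t1) (z := x 0) p hbne).sub (hasDerivAt_id (x 0))
      have e2 : ∏ i ∈ Finset.range p, (Wr (C t1 * a) b).eval (wl a b i (t1, x 0)) /
          (b.eval (wl a b i (t1, x 0))) ^ 2 = m1 := by
        rw [← hc.mul]
        refine Finset.prod_congr rfl fun i hi => ?_
        rw [hw i (Finset.mem_range.1 hi).le]
      rw [e2] at e1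
      exact e1
    have d5 := d3.unique d4
    show (fderiv ℂ f u) ((ContinuousLinearMap.inr ℂ ℂ ℂ) 1) ≠ 0
    rw [ContinuousLinearMap.inr_apply, d5]
    exact sub_ne_zero.2 hm
  have hinv : (fderiv ℂ f u ∘L .inr ℂ ℂ ℂ).IsInvertible := inv_of _ hL
  obtain ⟨ζ, hζ⟩ : ∃ ζ : ℂ → ℂ, ζ = cdf.implicitFunction one_ne_zero hinv := ⟨_, rfl⟩
  have z0 : ζ u.1 = u.2 := by
    rw [hζ]
    exact cdf.implicitFunction_apply_self one_ne_zero hinv
  have z1 : ∀ᶠ t in 𝓝 u.1, f (t, ζ t) = 0 := by
    rw [hζ, ← hfu]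
    exact cdf.eventually_apply_implicitFunction one_ne_zero hinv
  have z2 : ∀ᶠ v in 𝓝 u, f v = 0 ↔ ζ v.1 = v.2 := by
    rw [hζ, ← hfu]
    exact cdf.eventually_apply_eq_iff_implicitFunction one_ne_zero hinv
  have z3 : ContDiffAt ℂ 1 ζ u.1 := by
    rw [hζ]
    exact cdf.contDiffAt_implicitFunction one_ne_zero hinv
  have z4 : ∀ᶠ t in 𝓝 u.1, ContDiffAt ℂ 1 ζ t := z3.eventually (by simp)
  -- the denominators near the point
  have b1 : ∀ᶠ q in 𝓝 u, ∀ i, i < p → b.eval (wl a b i q) ≠ 0 := by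
    have b2 : ∀ i ∈ Finset.range p, ∀ᶠ q in 𝓝 u, b.eval (wl a b i q) ≠ 0 := by
      intro i hi
      have hi' := Finset.mem_range.1 hi
      have c1 : ContinuousAt (wl a b i) u := (wl_cd i (fun j hj => hbu j (by omega))).continuousAt
      have c2 : ContinuousAt (fun q => b.eval (wl a b i q)) u :=
        ContinuousAt.comp (g := fun z : ℂ => b.eval z) b.continuous.continuousAt c1
      exact c2.eventually_ne (hbu i hi')
    have b3 := (Filter.eventually_all_finset (Finset.range p)).2 b2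
    filter_upwards [b3] with q hq i hi
    exact hq i (Finset.mem_range.2 hi)
  have zt : Tendsto (fun t => ((t, ζ t) : ℂ × ℂ)) (𝓝 u.1) (𝓝 u) := by
    have h1 : ContinuousAt (fun t => ((t, ζ t) : ℂ × ℂ)) u.1 := continuousAt_id.prodMk z3.continuousAt
    have h2 : ((u.1, ζ u.1) : ℂ × ℂ) = u := by rw [z0]
    have h3 : Tendsto (fun t => ((t, ζ t) : ℂ × ℂ)) (𝓝 u.1) (𝓝 (u.1, ζ u.1)) := h1
    rw [h2] at h3
    exact h3
  have b4 : ∀ᶠ t in 𝓝 u.1, ∀ i, i < p → b.eval (wl a b i (t, ζ t)) ≠ 0 := zt.eventually b1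
  obtain ⟨r1, hr1, hr1'⟩ := Metric.eventually_nhds_iff_ball.1 (z1.and (z4.and b4))
  obtain ⟨r2, hr2, hr2'⟩ := Metric.eventually_nhds_iff_ball.1 z2
  refine ⟨min r1 r2, lt_min hr1 hr2, fun t => ∏ i ∈ Finset.range p,
    (Wr (C t * a) b).eval (wl a b i (t, ζ t)) / (b.eval (wl a b i (t, ζ t))) ^ 2, ?_, ?_, ?_⟩
  · intro t ht
    have ht1 : t ∈ ball u.1 r1 := by
      rw [hu]
      exact ball_subset_ball (min_le_left _ _) ht
    obtain ⟨g1, g2, g3⟩ := hr1' t ht1
    refine DifferentiableAt.differentiableWithinAt ?_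
    have k1 : ∀ i, i < p → DifferentiableAt ℂ (fun s => wl a b i (s, ζ s)) t := by
      intro i hi
      have k2 : DifferentiableAt ℂ (wl a b i) (t, ζ t) :=
        (wl_cd i (fun j hj => g3 j (by omega))).differentiableAt one_ne_zero
      have k3 : DifferentiableAt ℂ (fun s => ((s, ζ s) : ℂ × ℂ)) t :=
        differentiableAt_id.prodMk (g2.differentiableAt one_ne_zero)
      exact DifferentiableAt.comp t k2 k3
    have k4 : ∀ s z : ℂ, (Wr (C s * a) b).eval z = s * (Wr a b).eval z := by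
      intro s z
      unfold Wr
      rw [derivative_C_mul]
      simp only [eval_sub, eval_mul, eval_C]
      ring
    have k5 : ∀ i ∈ Finset.range p, DifferentiableAt ℂ (fun s => (Wr (C s * a) b).eval (wl a b i (s, ζ s)) /
        (b.eval (wl a b i (s, ζ s))) ^ 2) t := by
      intro i hi
      have hi' := Finset.mem_range.1 hi
      have k6 := k1 i hi'
      simp only [k4]
      refine DifferentiableAt.div ?_ ?_ (pow_ne_zero 2 (g3 i hi'))
      · exact differentiableAt_id.mul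
          (DifferentiableAt.comp (g := fun z : ℂ => (Wr a b).eval z) t (Wr a b).differentiable.differentiableAt k6)
      · exact (DifferentiableAt.comp (g := fun z : ℂ => b.eval z) t b.differentiable.differentiableAt k6).pow 2
    exact DifferentiableAt.fun_finsetProd k5
  · intro t ht y m hy hy0
    have hq : ((t, y 0) : ℂ × ℂ) ∈ ball u r2 := by
      rw [hu, Metric.mem_ball, Prod.dist_eq, max_lt_iff]
      refine ⟨lt_of_lt_of_le (Metric.mem_ball.1 ht) (min_le_right _ _), ?_⟩
      rw [dist_eq_norm]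
      exact lt_of_lt_of_le hy0 (min_le_right _ _)
    have hy' := wl_cyc hy
    have h0 : f (t, y 0) = 0 := by
      rw [hf]
      simp only
      rw [hy' p le_rfl, hy.per, sub_self]
    have h1 : ζ t = y 0 := (hr2' _ hq).1 h0
    rw [← hy.mul]
    refine Finset.prod_congr rfl fun i hi => ?_
    rw [h1, hy' i (Finset.mem_range.1 hi).le]
  · intro t ht
    have ht1 : t ∈ ball u.1 r1 := by
      rw [hu]
      exact ball_subset_ball (min_le_left _ _) ht
    obtain ⟨g1, g2, g3⟩ := hr1' t ht1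
    refine ⟨fun i => wl a b i (t, ζ t), ⟨fun i hi => g3 i hi, fun i _ => ?_, ?_, rfl⟩⟩
    · rw [eval_mul, eval_C]
      rfl
    · rw [hf] at g1
      exact sub_eq_zero.1 g1

end Pool.Agent.H47.NN
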