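import Pool.Agent.H47.NN.MFC
import Pool.Agent.H47.NN.LOC
import Pool.Agent.H47.NN.CIR

/-!
# Module LNE: on every line `t ↦ t a / b` neutral cycles occur for a null set of `t`

PROOF. `T1 = {t | ∃ x, Cyc (C t * a) b p x 1}` is finite (`mfin`, `m = 1`), null. Let `S` be the set of the `(t, z)` in `ℂ × ℂ` such that there are `x, m` with `x 0 = z`, `Cyc (C t * a) b p x m`, `‖m‖ = 1`, `m ≠ 1`. For `(t1, z1)` in `S` let
`r, Λ` be as in `loc`. If `Λ` is constant on `ball t1 r`, with value `c`, then `c` is the multiplier of `x` (`loc` at `t1`, `y = x`), `‖c‖ = 1`, and every `t` in the ball is in the set of `mfin` for `c`: an infinite subset of a finite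
set. So `Λ` is not constant and `N(t1, z1) = {t ∈ ball t1 r | ‖Λ t‖ = 1}` is null (`circ`). If `(t, z)` is in `S`, `t ∈ ball t1 r`, `‖z - z1‖ < r`, then `m = Λ t`, so `t` is in `N(t1, z1)`. By Lindelof
(`TopologicalSpace.countable_cover_nhdsWithin` for the neighbourhoods `ball t1 r ×ˢ ball z1 r` of the points of `S`) countably many neighbourhoods cover `S`, so the projection of `S` to the first coordinate is contained in a countable union of null sets.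
-/

set_option autoImplicit false

open Filter Topology Polynomial Metric Set MeasureTheory

namespace Pool.Agent.H47.NN

private theorem lne_loc {d p : ℕ} {a b : Polynomial ℂ} (h : Gen d a b) (hp : 0 < p)
    {t1 m1 : ℂ} {x : ℕ → ℂ} (hc : Cyc (C t1 * a) b p x m1) (hm1 : ‖m1‖ = 1) (hm : m1 ≠ 1) :
    ∃ r : ℝ, 0 < r ∧ ∃ N : Set ℂ, volume N = 0 ∧ ∀ (t : ℂ) (y : ℕ → ℂ) (m : ℂ),
      Cyc (C t * a) b p y m → ‖m‖ = 1 → t ∈ ball t1 r → y 0 ∈ ball (x 0) r → t ∈ N := by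
  obtain ⟨r, hr, Λ, hΛ, hu, he⟩ := loc (d := d) h.ha.le h.hb.le hc hm
  refine ⟨r, hr, {t | t ∈ ball t1 r ∧ ‖Λ t‖ = 1}, circ hΛ ?_, ?_⟩
  · rintro ⟨c, hcc⟩
    have h1 : m1 = Λ t1 := hu t1 (mem_ball_self hr) x m1 hc (by simpa using hr)
    have hc1 : ‖c‖ = 1 := by rw [← hcc t1 (mem_ball_self hr), ← h1, hm1]
    have hfin := mfin h hp hc1
    have hsub : ball t1 r ⊆ {t : ℂ | ∃ x : ℕ → ℂ, Cyc (C t * a) b p x c} := by
      intro t ht
      obtain ⟨y, hy⟩ := he t ht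
      rw [hcc t ht] at hy
      exact ⟨y, hy⟩
    exact (infinite_of_mem_nhds t1 (ball_mem_nhds t1 hr)) (hfin.subset hsub)
  · intro t y m hy hm' ht hy0
    have h2 := hu t ht y m hy (by simpa [dist_eq_norm] using mem_ball.1 hy0)
    exact ⟨ht, by rw [← h2, hm']⟩

theorem lnull {d p : ℕ} {a b : Polynomial ℂ} (h : Gen d a b) (hp : 0 < p) :
    volume {t : ℂ | ∃ x m, Cyc (C t * a) b p x m ∧ ‖m‖ = 1} = 0 := by
  classical
  let S : Set (ℂ × ℂ) := {q | ∃ x m, x 0 = q.2 ∧ Cyc (C q.1 * a) b p x m ∧ ‖m‖ = 1 ∧ m ≠ 1}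
  have key : ∀ q : ℂ × ℂ, ∃ r : ℝ, 0 < r ∧ ∃ N : Set ℂ, volume N = 0 ∧ (q ∈ S →
      ∀ (t : ℂ) (y : ℕ → ℂ) (m : ℂ), Cyc (C t * a) b p y m → ‖m‖ = 1 → t ∈ ball q.1 r →
        y 0 ∈ ball q.2 r → t ∈ N) := by
    intro q
    by_cases hq : q ∈ S
    · obtain ⟨x, m, hx, hc, hm, hm1⟩ := hq
      obtain ⟨r, hr, N, hN, h2⟩ := lne_loc h hp hc hm hm1
      refine ⟨r, hr, N, hN, fun _ t y m' hy hm' ht hy0 => h2 t y m' hy hm' ht ?_⟩
      rw [hx]; exact hy0
    · exact ⟨1, one_pos, ∅, measure_empty, fun hq' => absurd hq' hq⟩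
  choose r hr N hN hk using key
  obtain ⟨T, hTS, hTc, hT⟩ := TopologicalSpace.countable_cover_nhdsWithin (s := S)
    (f := fun q => ball q.1 (r q) ×ˢ ball q.2 (r q)) (fun q _ =>
      mem_nhdsWithin_of_mem_nhds (prod_mem_nhds (ball_mem_nhds _ (hr q)) (ball_mem_nhds _ (hr q))))
  have h1 : volume {t : ℂ | ∃ x : ℕ → ℂ, Cyc (C t * a) b p x 1} = 0 :=
    (mfin h hp (m := 1) (by simp)).measure_zero _
  have h2 : volume (⋃ q ∈ T, N q) = 0 := (measure_biUnion_null_iff hTc).2 fun q _ => hN q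
  refine measure_mono_null ?_ (measure_union_null h1 h2)
  rintro t ⟨x, m, hc, hm⟩
  by_cases hm1 : m = 1
  · subst hm1
    exact Or.inl ⟨x, hc⟩
  · right
    have hS : (t, x 0) ∈ S := ⟨x, m, rfl, hc, hm, hm1⟩
    have := hT hS
    simp only [mem_iUnion] at this ⊢
    obtain ⟨q, hq, hqq⟩ := this
    exact ⟨q, hq, hk q (hTS hq) t x m hc hm hqq.1 hqq.2⟩

end Pool.Agent.H47.NN
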