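import Pool.Agent.H47.NN.Defs

/-!
# Module SMA: away from the poles, `a / b` is bounded

PROOF. `b` is not 0 (`b.eval 0 ≠ 0`), so its set of zeros is finite. Let `F = {z | ∀ β, b.eval β = 0 → δ ≤ ‖z - β‖}`, a closed set on which `b` does not vanish
(`z` itself would be a zero, `δ ≤ ‖z - z‖ = 0`).
At infinity: both polynomials have degree exactly `d` (`h.ha`, `h.hb`), so `a.eval z / b.eval z` tends to the quotient of the leading coefficients as `‖z‖ → ∞`
(`Polynomial.div_tendsto_leadingCoeff_div_of_degree_eq` is for ordered fields; over `ℂ`: `a.eval z / z ^ d` and `b.eval z / z ^ d` are the values at `1 / z` of the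
reversed polynomials, or use `Polynomial.tendsto_norm_atTop` for `b` together with `a = C (lead a / lead b) * b + r`, `natDegree r < d` and
`‖r.eval z‖ ≤ ‖b.eval z‖` for large `‖z‖`, e.g. `Polynomial.isBigO_of_degree_le`-type lemmas along `cobounded ℂ`). So there are `R, M1` with `b.eval z ≠ 0` and `‖a.eval z‖ ≤ M1 ‖b.eval z‖` for `‖z‖ > R`.
On the compact set `F ∩ closedBall 0 R` the continuous function `‖a.eval z‖ / ‖b.eval z‖` is bounded by some `M2`. `M = max M1 M2 + 1` (positive).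
-/

set_option autoImplicit false

open Filter Topology Polynomial Metric Set MeasureTheory

namespace Pool.Agent.H47.NN

private theorem sma_prod {z : ℂ} {K : ℝ} (hK : 0 ≤ K) (s : Multiset ℂ)
    (h : ∀ β ∈ s, 1 + ‖z‖ ≤ K * ‖z - β‖) :
    (1 + ‖z‖) ^ (Multiset.card s) ≤ K ^ (Multiset.card s) * ‖(s.map fun β => z - β).prod‖ := by
  induction s using Multiset.induction_on with
  | empty => simp
  | cons β s ih =>
    rw [Multiset.card_cons, Multiset.map_cons, Multiset.prod_cons, norm_mul, pow_succ, pow_succ]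
    have h1 := h β (Multiset.mem_cons_self β s)
    have h2 := ih fun γ hγ => h γ (Multiset.mem_cons_of_mem hγ)
    calc (1 + ‖z‖) ^ (Multiset.card s) * (1 + ‖z‖)
        ≤ (K ^ (Multiset.card s) * ‖(s.map fun β => z - β).prod‖) * (K * ‖z - β‖) :=
          mul_le_mul h2 h1 (by positivity) (by positivity)
      _ = _ := by ring

theorem away {d : ℕ} {a b : Polynomial ℂ} (h : Gen d a b) {δ : ℝ} (hδ : 0 < δ) :
    ∃ M : ℝ, 0 < M ∧ ∀ z : ℂ, (∀ β, b.eval β = 0 → δ ≤ ‖z - β‖) →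
      b.eval z ≠ 0 ∧ ‖a.eval z‖ ≤ M * ‖b.eval z‖ := by
  have hb : b ≠ 0 := by
    intro h0
    exact h.b0 (by rw [h0, eval_zero])
  have hlead : 0 < ‖b.leadingCoeff‖ := norm_pos_iff.2 (leadingCoeff_ne_zero.2 hb)
  -- bound for the roots
  obtain ⟨R, hR⟩ : ∃ R : ℝ, ∀ β ∈ b.roots, ‖β‖ ≤ R := by
    obtain ⟨R, hR⟩ := isBounded_iff_forall_norm_le.1 (b.roots.toFinset.finite_toSet.isBounded)
    exact ⟨R, fun β hβ => hR β (Finset.mem_coe.2 (Multiset.mem_toFinset.2 hβ))⟩
  obtain ⟨K, hKdef⟩ : ∃ K, K = (1 + |R|) / δ + 1 := ⟨_, rfl⟩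
  have hK : 0 < K := by
    rw [hKdef]
    positivity
  obtain ⟨S, hSdef⟩ : ∃ S, S = ∑ i ∈ Finset.range (d + 1), ‖a.coeff i‖ := ⟨_, rfl⟩
  have hS : 0 ≤ S := by
    rw [hSdef]
    positivity
  refine ⟨S * K ^ d / ‖b.leadingCoeff‖ + 1, by positivity, fun z hz => ?_⟩
  have hbz : b.eval z ≠ 0 := by
    intro h0
    have h1 := hz z h0
    rw [sub_self, norm_zero] at h1
    linarith
  refine ⟨hbz, ?_⟩
  have h1 : ∀ β ∈ b.roots, 1 + ‖z‖ ≤ K * ‖z - β‖ := by
    intro β hβ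
    have h2 : b.eval β = 0 := (mem_roots hb).1 hβ
    have h3 := hz β h2
    have h4 : ‖z‖ ≤ ‖β‖ + ‖z - β‖ := by
      have := norm_add_le β (z - β)
      rwa [add_sub_cancel] at this
    have h5 : ‖β‖ ≤ |R| := (hR β hβ).trans (le_abs_self R)
    have h6 : 1 + |R| ≤ (1 + |R|) / δ * ‖z - β‖ := by
      rw [div_mul_eq_mul_div, le_div_iff₀ hδ]
      exact mul_le_mul_of_nonneg_left h3 (by positivity)
    rw [hKdef, add_mul, one_mul]
    linarith
  have h2 := sma_prod hK.le b.roots h1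
  have h3 : Multiset.card b.roots = d := by
    rw [IsAlgClosed.card_roots_eq_natDegree, h.hb]
  rw [h3] at h2
  have h4 : ‖b.eval z‖ = ‖b.leadingCoeff‖ * ‖(b.roots.map fun β => z - β).prod‖ := by
    rw [(IsAlgClosed.splits b).eval_eq_prod_roots, norm_mul]
  have h5 : ‖a.eval z‖ ≤ S * (1 + ‖z‖) ^ d := by
    rw [eval_eq_sum_range' (show a.natDegree < d + 1 by rw [h.ha]; omega), hSdef, Finset.sum_mul]
    refine (norm_sum_le _ _).trans (Finset.sum_le_sum fun i hi => ?_)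
    rw [norm_mul, norm_pow]
    refine mul_le_mul_of_nonneg_left ?_ (norm_nonneg _)
    have hi' : i ≤ d := by
      rw [Finset.mem_range] at hi
      omega
    calc ‖z‖ ^ i ≤ (1 + ‖z‖) ^ i := pow_le_pow_left₀ (norm_nonneg _) (by linarith) _
      _ ≤ (1 + ‖z‖) ^ d := pow_le_pow_right₀ (by linarith [norm_nonneg z]) hi'
  have h6 : S * K ^ d / ‖b.leadingCoeff‖ * ‖b.eval z‖ =
      S * (K ^ d * ‖(b.roots.map fun β => z - β).prod‖) := by
    rw [h4]
    field_simp
  calc ‖a.eval z‖ ≤ S * (1 + ‖z‖) ^ d := h5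
    _ ≤ S * (K ^ d * ‖(b.roots.map fun β => z - β).prod‖) := mul_le_mul_of_nonneg_left h2 hS
    _ = S * K ^ d / ‖b.leadingCoeff‖ * ‖b.eval z‖ := h6.symm
    _ ≤ (S * K ^ d / ‖b.leadingCoeff‖ + 1) * ‖b.eval z‖ :=
        mul_le_mul_of_nonneg_right (by linarith) (norm_nonneg _)

end Pool.Agent.H47.NN
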